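import Pool.Agent.W5h98.Pol.Stage

/-!
Events of a Boolean product space that depend on finitely many coordinates.
-/

set_option autoImplicit false

namespace Pool.Agent.W5h98.Pol
open MeasureTheory ProbabilityTheory Finset

section general
variable {ι : Type*}

/-- The event `E` depends only on the coordinates in `T`. -/
def Dep (T : Set ι) (E : Set (ι → Bool)) : Prop := ∀ ω ω', (∀ t ∈ T, ω t = ω' t) → ω ∈ E → ω' ∈ E

theorem Dep.mono {T T' : Set ι} {E : Set (ι → Bool)} (h : Dep T E) (hT : T ⊆ T') : Dep T' E :=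
  fun ω ω' h1 h2 => h ω ω' (fun t ht => h1 t (hT ht)) h2

theorem Dep.iff {T : Set ι} {E : Set (ι → Bool)} (h : Dep T E) {ω ω' : ι → Bool}
    (hω : ∀ t ∈ T, ω t = ω' t) : ω ∈ E ↔ ω' ∈ E :=
  ⟨h ω ω' hω, h ω' ω fun t ht => (hω t ht).symm⟩

theorem Dep.compl {T : Set ι} {E : Set (ι → Bool)} (h : Dep T E) : Dep T Eᶜ :=
  fun _ _ h1 h2 h3 => h2 ((h.iff h1).2 h3)

theorem Dep.pre {T : Finset ι} {E : Set (ι → Bool)} (h : Dep (T : Set ι) E) :
    E = (fun (ω : ι → Bool) (i : T) => ω i) ⁻¹' ((fun (ω : ι → Bool) (i : T) => ω i) '' E) := by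
  ext ω
  constructor
  · intro hω; exact ⟨ω, hω, rfl⟩
  · rintro ⟨ω', h1, h2⟩
    exact h ω' ω (fun t ht => congrFun h2 ⟨t, ht⟩) h1

theorem meas_of_fin {T : Finset ι} (A : Set (T → Bool)) : MeasurableSet A := by
  exact (Set.toFinite A).measurableSet

theorem Dep.meas {T : Finset ι} {E : Set (ι → Bool)} (h : Dep (T : Set ι) E) : MeasurableSet E := by
  rw [h.pre]
  exact (measurable_pi_lambda _ fun i => measurable_pi_apply _) (meas_of_fin _)

variable (ν : ι → Measure Bool) [∀ i, IsProbabilityMeasure (ν i)]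

theorem Dep.indep {T1 T2 : Finset ι} {E1 E2 : Set (ι → Bool)} (h1 : Dep (T1 : Set ι) E1)
    (h2 : Dep (T2 : Set ι) E2) (hd : Disjoint T1 T2) :
    Measure.infinitePi ν (E1 ∩ E2) = Measure.infinitePi ν E1 * Measure.infinitePi ν E2 := by
  have hind : iIndepFun (fun (i : ι) (ω : ι → Bool) => ω i) (Measure.infinitePi ν) :=
    iIndepFun_infinitePi (X := fun _ ω => ω) (by fun_prop)
  have := hind.indepFun_finset T1 T2 hd (fun i => measurable_pi_apply i)
  have key := this.measure_inter_preimage_eq_mul _ _ (meas_of_fin ((fun (ω : ι → Bool) (i : T1) => ω i) '' E1))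
    (meas_of_fin ((fun (ω : ι → Bool) (i : T2) => ω i) '' E2))
  rw [← h1.pre, ← h2.pre] at key
  exact key

theorem Dep.indep_real {T1 T2 : Finset ι} {E1 E2 : Set (ι → Bool)} (h1 : Dep (T1 : Set ι) E1)
    (h2 : Dep (T2 : Set ι) E2) (hd : Disjoint T1 T2) :
    (Measure.infinitePi ν).real (E1 ∩ E2) =
      (Measure.infinitePi ν).real E1 * (Measure.infinitePi ν).real E2 := by
  simp only [measureReal_def, h1.indep ν h2 hd, ENNReal.toReal_mul]

open Classical in
/-- Conditioning on the coordinates in `T1`. -/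
theorem glue_le {T1 T2 : Finset ι} (hd : Disjoint T1 T2) {E : Set (ι → Bool)}
    (hE : Dep ((T1 : Set ι) ∪ T2) E) (p : ι → Prop) [DecidablePred p] (h1 : ∀ t ∈ T1, ¬ p t) (h2 : ∀ t ∈ T2, p t)
    (c : ℝ) (hc : ∀ ω1 : ι → Bool,
      (Measure.infinitePi ν).real {ω2 | (fun t => if p t then ω2 t else ω1 t) ∈ E} ≤ c) :
    (Measure.infinitePi ν).real E ≤ c := by
  set P := Measure.infinitePi ν with hP
  have : IsProbabilityMeasure P := by rw [hP]; infer_instance
  set ext : (T1 → Bool) → (ι → Bool) := fun π t => if h : t ∈ T1 then π ⟨t, h⟩ else false with hext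
  set G : (T1 → Bool) → Set (ι → Bool) :=
    fun π => {ω2 | (fun t => if p t then ω2 t else ext π t) ∈ E} with hG
  set A : (T1 → Bool) → Set (ι → Bool) := fun π => (fun (ω : ι → Bool) (i : T1) => ω i) ⁻¹' {π} with hA
  have hdepA : ∀ π, Dep (T1 : Set ι) (A π) := by
    intro π ω ω' h hω
    have h3 : (fun (i : T1) => ω i) = π := hω
    show (fun (i : T1) => ω' i) = π
    rw [← h3]
    funext i
    exact (h i i.2).symm
  have hdepG : ∀ π, Dep (T2 : Set ι) (G π) := by
    intro π ω ω' h hω
    refine hE _ _ ?_ hω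
    intro t ht
    rcases ht with ht | ht
    · simp only [h1 t ht, if_false]
    · simp only [h2 t ht, if_true]; exact h t ht
  have hsub : E ⊆ ⋃ π ∈ (Finset.univ : Finset (T1 → Bool)), A π ∩ G π := by
    intro ω hω
    simp only [Finset.mem_univ, Set.iUnion_true, Set.mem_iUnion]
    refine ⟨fun i => ω i, rfl, ?_⟩
    refine hE ω _ ?_ hω
    intro t ht
    rcases ht with ht | ht
    · simp only [h1 t ht, if_false, hext]
      rw [dif_pos (by exact_mod_cast ht)]
    · simp only [h2 t ht, if_true]
  have hc0 : 0 ≤ c := le_trans measureReal_nonneg (hc fun _ => false)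
  calc P.real E ≤ P.real (⋃ π ∈ (Finset.univ : Finset (T1 → Bool)), A π ∩ G π) :=
        measureReal_mono hsub (measure_ne_top _ _)
    _ ≤ ∑ π, P.real (A π ∩ G π) := measureReal_biUnion_finset_le _ _
    _ = ∑ π, P.real (A π) * P.real (G π) := by
        apply Finset.sum_congr rfl
        intro π _
        exact (hdepA π).indep_real ν (hdepG π) hd
    _ ≤ ∑ π, P.real (A π) * c := by
        apply Finset.sum_le_sum
        intro π _
        exact mul_le_mul_of_nonneg_left (hc _) measureReal_nonneg
    _ = (∑ π, P.real (A π)) * c := by rw [Finset.sum_mul]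
    _ = 1 * c := by
        congr 1
        have : ∑ π, P.real (A π) = P.real (⋃ π, A π) := by
          rw [measureReal_iUnion_fintype]
          · intro π π' hne
            apply Set.disjoint_left.2
            intro ω h3 h4
            exact hne (h3.symm.trans h4)
          · intro π; exact (hdepA π).meas
        rw [this]
        have : (⋃ π, A π) = Set.univ := by
          apply Set.eq_univ_of_forall
          intro ω
          exact Set.mem_iUnion.2 ⟨fun i => ω i, rfl⟩
        rw [this]
        simp [hP]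
    _ = c := one_mul c

end general

end Pool.Agent.W5h98.Pol
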