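import Pool.Agent.W5h98.Pol.Diag

/-!
Asymptotics.
-/

set_option autoImplicit false

namespace Pool.Agent.W5h98.Pol
open MeasureTheory ProbabilityTheory Finset Filter Topology
open Pool.Agent.Results.MP_faaa3e_pr.DenseClosedSites (siteLaw occupied φ siteLaw_prob)

variable {d : ℕ}

theorem φ_le_one (r : ℕ) {p q : ℝ} (hp : 0 ≤ p) (hq : 0 ≤ q) (hpq : p + q ≤ 1) : φ d r p q ≤ 1 := by
  have : IsProbabilityMeasure (siteLaw p q) := siteLaw_prob hp hq hpq
  exact prob_le_one

theorem tendsto_one_of {β : Type*} {l : Filter β} {f : β → ENNReal} (h1 : ∀ᶠ n in l, f n ≤ 1)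
    (h : ∀ ε : ℝ, 0 < ε → ∀ᶠ n in l, ENNReal.ofReal (1 - ε) ≤ f n) : Tendsto f l (𝓝 1) := by
  rw [tendsto_order]
  constructor
  · intro a ha
    have ha' : a ≠ ⊤ := (lt_of_lt_of_le ha (by simp)).ne
    have hr : a.toReal < 1 := by
      have := (ENNReal.toReal_lt_toReal ha' ENNReal.one_ne_top).2 ha
      simpa using this
    filter_upwards [h ((1 - a.toReal) / 2) (by linarith)] with n hn
    refine lt_of_lt_of_le ?_ hn
    rw [ENNReal.lt_ofReal_iff_toReal_lt ha']
    linarith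
  · intro a ha
    filter_upwards [h1] with n hn
    exact lt_of_le_of_lt hn ha

theorem diag_lim (hd : 2 ≤ d) (p q : ℕ → ℝ) (hp : ∀ n, 0 < p n) (hq : ∀ n, 0 ≤ q n)
    (hpq : ∀ n, p n + q n ≤ 1) (hp0 : Tendsto p atTop (𝓝 0))
    (h : Tendsto (fun n => q n * (Real.log (1 / p n) / p n) ^ d) atTop (𝓝 0)) :
    Tendsto (fun n => φ d d (p n) (q n)) atTop (𝓝 1) := by
  have hdR : (0 : ℝ) < d := by exact_mod_cast (by omega : 0 < d)
  apply tendsto_one_of
  · exact Eventually.of_forall fun n => φ_le_one d (hp n).le (hq n) (hpq n)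
  intro ε hε
  obtain ⟨δ, hδ, H⟩ := conv_eq hd ε hε
  set K : ℝ := 2 * (d : ℝ) ^ 2 + 2 with hK
  have hxl : Tendsto (fun n => (Real.log (1 / p n) * p n) ^ d) atTop (𝓝 0) := by
    have h1 := (Real.continuous_mul_log.tendsto 0).comp hp0
    simp only [Function.comp_def, Real.log_zero, mul_zero] at h1
    have h2 := (h1.neg).pow d
    rw [neg_zero, zero_pow (by omega)] at h2
    refine h2.congr fun n => ?_
    rw [one_div, Real.log_inv]
    ring
  have hf : Tendsto (fun n => K ^ d * (q n * (Real.log (1 / p n) / p n) ^ d) +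
      d * (K ^ d * (Real.log (1 / p n) * p n) ^ d)) atTop (𝓝 0) := by
    have h1 := (h.const_mul (K ^ d)).add ((hxl.const_mul (K ^ d)).const_mul (d : ℝ))
    simpa using h1
  have hev1 : ∀ᶠ n in atTop, p n < Real.exp (-1) := hp0.eventually (eventually_lt_nhds (Real.exp_pos _))
  filter_upwards [hf.eventually (eventually_le_nhds hδ), hev1] with n hn hpe
  set ℓ : ℝ := Real.log (1 / p n) with hℓ
  have hℓ1 : 1 ≤ ℓ := by
    rw [hℓ, one_div, Real.log_inv]
    have := Real.log_lt_log (hp n) hpe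
    rw [Real.log_exp] at this
    linarith
  have hp1 : p n < 1 := by
    have : Real.exp (-1) < 1 := by
      rw [Real.exp_lt_one_iff]; norm_num
    linarith
  have hX : 1 ≤ ℓ / p n := by
    rw [le_div_iff₀ (hp n)]; linarith
  set S : ℕ := ⌈2 * (d : ℝ) ^ 2 * (ℓ / p n)⌉₊ + 1 with hS
  have hS1 : 2 * (d : ℝ) ^ 2 * (ℓ / p n) ≤ S := by
    have := Nat.le_ceil (2 * (d : ℝ) ^ 2 * (ℓ / p n))
    rw [hS]; push_cast; linarith
  have hS2 : (S : ℝ) ≤ K * (ℓ / p n) := by
    have := Nat.ceil_lt_add_one (a := 2 * (d : ℝ) ^ 2 * (ℓ / p n)) (by positivity)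
    rw [hS, hK]; push_cast
    nlinarith
  have hq1 : q n < 1 := by linarith [hp n, hpq n]
  refine H (p n) (q n) (hp n) (hq n) hq1 (hpq n) S (by omega) (le_trans ?_ hn)
  have hpd : p n / d ≤ 1 := by
    rw [div_le_one hdR]
    have : (1 : ℝ) ≤ d := by exact_mod_cast (by omega : 1 ≤ d)
    linarith
  have hexp : (1 - p n / d) ^ S ≤ p n ^ (2 * d) := by
    have h1 : 1 - p n / d ≤ Real.exp (-(p n / d)) := by
      have := Real.add_one_le_exp (-(p n / d)); linarith
    calc (1 - p n / d) ^ S ≤ (Real.exp (-(p n / d))) ^ S := pow_le_pow_left₀ (by linarith) h1 S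
      _ = Real.exp (-(p n / d) * S) := by rw [← Real.exp_nat_mul]; ring_nf
      _ ≤ Real.exp (-(2 * d * ℓ)) := by
          rw [Real.exp_le_exp]
          have : 2 * d * ℓ ≤ p n / d * S := by
            calc 2 * d * ℓ = p n / d * (2 * (d : ℝ) ^ 2 * (ℓ / p n)) := by
                  have := (hp n).ne'
                  field_simp
              _ ≤ p n / d * S := mul_le_mul_of_nonneg_left hS1 (by have := hp n; positivity)
          linarith
      _ = p n ^ (2 * d) := by
          have e : -(2 * d * ℓ) = ((2 * d : ℕ) : ℝ) * Real.log (p n) := by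
            rw [hℓ, one_div, Real.log_inv]; push_cast; ring
          rw [e, Real.exp_nat_mul, Real.exp_log (hp n)]
  have hSd : (S : ℝ) ^ d ≤ K ^ d * (ℓ / p n) ^ d := by
    rw [← mul_pow]
    exact pow_le_pow_left₀ (by positivity) hS2 d
  have hKpos : 0 < K := by rw [hK]; positivity
  apply add_le_add
  · calc (S : ℝ) ^ d * q n ≤ (K ^ d * (ℓ / p n) ^ d) * q n :=
          mul_le_mul_of_nonneg_right hSd (hq n)
      _ = K ^ d * (q n * (ℓ / p n) ^ d) := by ring
  · apply mul_le_mul_of_nonneg_left _ hdR.le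
    calc (S : ℝ) ^ d * (1 - p n / d) ^ S ≤ (K ^ d * (ℓ / p n) ^ d) * p n ^ (2 * d) := by
          apply mul_le_mul hSd hexp (pow_nonneg (by linarith) _)
          have := hp n
          positivity
      _ = K ^ d * (ℓ * p n) ^ d := by
          have := (hp n).ne'
          rw [div_pow, mul_pow, mul_comm 2 d, pow_mul]
          field_simp

theorem small_of_ratio (hd : 1 ≤ d) {p q : ℕ → ℝ} (hp : ∀ n, 0 < p n) (hq : ∀ n, 0 < q n)
    (hp0 : Tendsto p atTop (𝓝 0)) {β : ℝ} (hβ : d < β)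
    (h : ∀ᶠ n in atTop, β ≤ Real.log (q n) / Real.log (p n)) :
    Tendsto (fun n => q n * (Real.log (1 / p n) / p n) ^ d) atTop (𝓝 0) := by
  have hdR : (0 : ℝ) < d := by exact_mod_cast hd
  have hγ : 0 < (β - d) / d := div_pos (by linarith) hdR
  have h1 := tendsto_log_mul_rpow_nhdsGT_zero hγ
  have hpw : Tendsto p atTop (𝓝[>] 0) :=
    tendsto_nhdsWithin_iff.2 ⟨hp0, Eventually.of_forall fun n => hp n⟩
  have h2 := ((h1.comp hpw).neg).pow d
  rw [neg_zero, zero_pow (by omega)] at h2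
  have hev1 : ∀ᶠ n in atTop, p n < 1 := hp0.eventually (eventually_lt_nhds one_pos)
  refine squeeze_zero' ?_ ?_ h2
  · filter_upwards [hev1] with n hn
    have hl : 0 ≤ Real.log (1 / p n) := by
      rw [one_div, Real.log_inv]
      have := Real.log_neg (hp n) hn
      linarith
    have := hp n
    have := hq n
    positivity
  · filter_upwards [h, hev1] with n hn hn1
    have hlp : Real.log (p n) < 0 := Real.log_neg (hp n) hn1
    have hqp : q n ≤ p n ^ β := by
      rw [← Real.log_le_log_iff (hq n) (Real.rpow_pos_of_pos (hp n) _), Real.log_rpow (hp n)]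
      rw [le_div_iff_of_neg hlp] at hn
      exact hn
    have hl : 0 ≤ Real.log (1 / p n) := by
      rw [one_div, Real.log_inv]; linarith
    have hpn := hp n
    calc q n * (Real.log (1 / p n) / p n) ^ d ≤ p n ^ β * (Real.log (1 / p n) / p n) ^ d :=
          mul_le_mul_of_nonneg_right hqp (by positivity)
      _ = (-(Real.log (p n) * p n ^ ((β - d) / d))) ^ d := by
          rw [one_div, Real.log_inv, div_pow, ← neg_mul, mul_pow, ← Real.rpow_natCast (p n ^ ((β - d) / d)),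
            ← Real.rpow_mul hpn.le, div_mul_cancel₀ _ hdR.ne', Real.rpow_sub hpn, Real.rpow_natCast]
          ring

/-- `φ → 1` as `(p, q) → (0, 0)` for `1 ≤ r < d`. -/
theorem lt_lim {r : ℕ} (hr1 : 1 ≤ r) (hr : r < d) :
    Tendsto (fun z : ℝ × ℝ => φ d r z.1 z.2)
      (𝓝[{z | 0 < z.1 ∧ 0 ≤ z.2 ∧ z.1 + z.2 ≤ 1}] (0, 0)) (𝓝 1) := by
  apply tendsto_one_of
  · filter_upwards [self_mem_nhdsWithin] with z hz
    exact φ_le_one r hz.1.le hz.2.1 hz.2.2
  · intro ε hε
    obtain ⟨δ, hδ, H⟩ := conv_lt hr1 hr ε hε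
    have h2 : ∀ᶠ z : ℝ × ℝ in 𝓝[{z | 0 < z.1 ∧ 0 ≤ z.2 ∧ z.1 + z.2 ≤ 1}] (0, 0), z.2 ≤ δ := by
      have : Tendsto (fun z : ℝ × ℝ => z.2) (𝓝[{z | 0 < z.1 ∧ 0 ≤ z.2 ∧ z.1 + z.2 ≤ 1}] (0, 0))
          (𝓝 0) := (continuous_snd.tendsto (0, 0)).mono_left nhdsWithin_le_nhds
      exact this.eventually (eventually_le_nhds hδ)
    filter_upwards [self_mem_nhdsWithin, h2] with z hz hz2
    exact H z.1 z.2 hz.1 hz.2.1 hz.2.2 hz2

end Pool.Agent.W5h98.Pol
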