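import Pool.Agent.W5h98.Pol.Law

/-!
The two base cases: `r < d` (cells are sites) and `r = d` (cells are blocks).
-/

set_option autoImplicit false

namespace Pool.Agent.W5h98.Pol
open MeasureTheory ProbabilityTheory Finset Filter Topology
open Pool.Agent.Results.MP_faaa3e_pr.DenseClosedSites (siteLaw occupied φ siteLaw_prob)

variable {d : ℕ}

theorem occupied_mono (r : ℕ) (η : V d → Fin 3) {t t' : ℕ} (h : t ≤ t') :
    occupied d r η t ⊆ occupied d r η t' := by
  induction h with
  | refl => exact subset_rfl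
  | step _ ih => exact ih.trans (fun x hx => Or.inl hx)

/-- The eventually occupied sites. -/
def occ (r : ℕ) (ω : Om d) (x : V d) : Prop := ∃ t, x ∈ occupied d r (st r ω) t

theorem st_cases {r : ℕ} {ω : Om d} {x : V d} (h : ¬ ω (x, 0) = true) :
    st r ω x = 0 ∨ st r ω x = 2 := by
  unfold st
  rw [if_neg h]
  split_ifs
  · exact Or.inl rfl
  · exact Or.inr rfl

theorem occ_of_type {r : ℕ} {ω : Om d} {x : V d} (h : ¬ ω (x, 0) = true) {j : ℕ} (h1 : 1 ≤ j)
    (h2 : j ≤ r) (h3 : ω (x, j) = true) : occ r ω x := by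
  refine ⟨0, ?_⟩
  show st r ω x = 0
  unfold st
  rw [if_neg h, if_pos ⟨j, h1, h2, h3⟩]

theorem sum_mv (x : V d) (i : Fin d) {s : ℤ} (hs : s = 1 ∨ s = -1) :
    ∑ k, |mv x i s k - x k| = 1 := by
  rw [Finset.sum_eq_single i]
  · rw [mv_same]
    rcases hs with rfl | rfl <;> simp
  · intro k _ hk
    rw [mv_ne _ _ hk]; simp
  · intro h; exact absurd (Finset.mem_univ i) h

theorem occ_rule (r : ℕ) (ω : Om d) : Rule r (fun x => ω (x, 0) = true) (occ r ω) := by
  classical
  rintro x hx ⟨A, hA, hsup⟩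
  have hch : ∀ i, ∃ s : ℤ, ∃ t : ℕ, i ∈ A → ((s = 1 ∨ s = -1) ∧
      mv x i s ∈ occupied d r (st r ω) t) := by
    intro i
    by_cases hi : i ∈ A
    · rcases hsup i hi with ⟨t, ht⟩ | ⟨t, ht⟩
      · exact ⟨1, t, fun _ => ⟨Or.inl rfl, ht⟩⟩
      · exact ⟨-1, t, fun _ => ⟨Or.inr rfl, ht⟩⟩
    · exact ⟨0, 0, fun h => absurd h hi⟩
  choose s t hst using hch
  set T := A.sup t with hT
  have hmem : ∀ i ∈ A, mv x i (s i) ∈ occupied d r (st r ω) T := fun i hi =>
    occupied_mono r _ (Finset.le_sup hi) (hst i hi).2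
  rcases st_cases (r := r) hx with h0 | h2
  · exact ⟨0, h0⟩
  · refine ⟨T + 1, Or.inr ⟨h2, le_trans hA ?_⟩⟩
    have hinj : Set.InjOn (fun i => mv x i (s i)) (A : Set (Fin d)) := by
      intro i hi i' hi' he
      by_contra hne
      have h3 := congrFun he i
      simp only at h3
      rw [mv_same, mv_ne _ _ hne] at h3
      rcases (hst i hi).1 with h | h <;> omega
    rw [← Finset.card_image_of_injOn hinj, ← Set.ncard_coe_finset]
    apply Set.ncard_le_ncard
    · intro y hy
      obtain ⟨i, hi, rfl⟩ := Finset.mem_image.1 (Finset.mem_coe.1 hy)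
      exact ⟨hmem i hi, sum_mv x i (hst i hi).1⟩
    · apply (Pool.Agent.H500R3.Pol.bx_finite x 1).subset
      rintro y ⟨_, hy⟩ i
      exact Pool.Agent.H500R3.Pol.nb_coord hy i

theorem exists_rho {r : ℕ} (hr : 1 ≤ r) {p q : ℝ} (hp : 0 < p) (hq : 0 ≤ q) (hpq : p + q ≤ 1)
    (hq1 : q < 1) : ∃ ρ : Set.Icc (0 : ℝ) 1, (1 - q) * (1 - (ρ : ℝ)) ^ r = 1 - p - q ∧
      0 < (ρ : ℝ) ∧ 1 - (ρ : ℝ) ≤ 1 - p / r := by
  set x : ℝ := (1 - p - q) / (1 - q) with hx
  have h1q : 0 < 1 - q := by linarith
  have hx0 : 0 ≤ x := div_nonneg (by linarith) h1q.le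
  have hx1 : x < 1 := by rw [hx, div_lt_one h1q]; linarith
  have hxp : x ≤ 1 - p := by
    rw [hx, div_le_iff₀ h1q]
    nlinarith [mul_nonneg hp.le hq]
  set y : ℝ := x ^ ((r : ℝ)⁻¹) with hy
  have hr0 : r ≠ 0 := by omega
  have hyr : y ^ r = x := Real.rpow_inv_natCast_pow hx0 hr0
  have hy0 : 0 ≤ y := Real.rpow_nonneg hx0 _
  have hy1 : y < 1 := by
    by_contra hcon
    push Not at hcon
    have : 1 ≤ y ^ r := one_le_pow₀ hcon
    linarith
  have hrp : (0 : ℝ) < r := by exact_mod_cast (by omega : 0 < r)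
  have hpr : y ≤ 1 - p / r := by
    have hB := one_add_mul_le_pow (a := y - 1) (by linarith) r
    have e : 1 + (y - 1) = y := by ring
    rw [e, hyr] at hB
    have : p ≤ r * (1 - y) := by nlinarith
    rw [le_sub_comm, div_le_iff₀ hrp]
    linarith
  refine ⟨⟨1 - y, by linarith, by linarith⟩, ?_, ?_, ?_⟩
  · simp only [sub_sub_cancel]
    rw [hyr, hx]
    field_simp
  · simp only; linarith
  · simp only [sub_sub_cancel]; exact hpr

/-- Base case `r < d`. -/
theorem conv_lt {r : ℕ} (hr1 : 1 ≤ r) (hr : r < d) (ε : ℝ) (hε : 0 < ε) : ∃ δ : ℝ, 0 < δ ∧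
    ∀ p q : ℝ, 0 < p → 0 ≤ q → p + q ≤ 1 → q ≤ δ → ENNReal.ofReal (1 - ε) ≤ φ d r p q := by
  obtain ⟨δ, hδ, H⟩ := stage (d := d) r (by omega) ε hε
  refine ⟨min δ (1 / 2), by positivity, ?_⟩
  intro p q hp hq hpq hqδ
  have hq1 : q < 1 := by
    have := hqδ.trans (min_le_right _ _)
    linarith
  obtain ⟨ρ, h1, h2, _⟩ := exists_rho hr1 hp hq hpq hq1
  set q' : Set.Icc (0 : ℝ) 1 := ⟨q, hq, hq1.le⟩ with hq'
  refine φ_ge (q := q') (ρ := ρ) (p := p) r hp.le hpq h1 ?_
  refine H (law q' ρ) ?_ r le_rfl 1 le_rfl (fun ω z => ω (z, 0) = true) ?_ ?_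
    (fun ω z => occ r ω z) (fun ω => occ_rule r ω) ?_
  · intro j hj _
    rw [law_pos _ _ hj, measureReal_def, bern_true, ENNReal.toReal_ofReal h2.le]
    exact h2
  · intro z ω ω' h h3
    show ω' (z, 0) = true
    rw [← h (z, 0) ?_]
    · exact h3
    · rw [Finset.mem_coe, mem_LocF]
      refine ⟨fun i => ?_, by simp, Or.inl rfl⟩
      simp only
      constructor <;> omega
  · intro z
    have e : {ω : Om d | ω (z, 0) = true} =
        Set.pi (({(z, 0)} : Finset (V d × ℕ)) : Set (V d × ℕ)) (fun _ => {true}) := by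
      ext ω
      simp
    rw [measureReal_def, e, Pr, Measure.infinitePi_pi _ (fun _ _ => measurableSet_singleton _),
      Finset.prod_singleton]
    simp only [law_zero, bern_true]
    rw [ENNReal.toReal_ofReal hq]
    exact hqδ.trans (min_le_left _ _)
  · rintro ω z hz ⟨j, hj1, hj2, hs⟩
    refine occ_of_type hz hj1 hj2 (hs z ?_)
    rw [mem_bxS]
    intro i
    constructor <;> omega

/-- A block without closed sites, with an occupied site on every line in direction `i0`, and with
full neighbouring blocks in all the other directions, becomes full. -/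
theorem block_fill {S : ℤ} {cl O : V d → Prop} (hrule : Rule d cl O) {z : V d}
    {J : Finset (Fin d)} {i0 : Fin d} (hi0 : i0 ∉ J) (hJ : J.card + 1 = d) {τ : V d}
    (hτ : ∀ j ∈ J, τ j = 1 ∨ τ j = -1) (hsup : ∀ j ∈ J, ∀ y ∈ bxS S (mv z j (τ j)), O y)
    (hcl : ∀ y ∈ bxS S z, ¬ cl y)
    (hline : ∀ y ∈ bxS S z, ∃ t, S * z i0 ≤ t ∧ t < S * z i0 + S ∧ O (Function.update y i0 t)) :
    ∀ y ∈ bxS S z, O y := by
  set h : V d := fun j => if τ j = 1 then S * z j + S else S * z j - 1 with hh
  have key : ∀ m : ℕ, ∀ y ∈ bxS S z, ∑ j ∈ J, (y j - h j).natAbs = m → O y := by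
    intro m
    induction m using Nat.strong_induction_on with
    | _ m IH =>
    intro y hy hm
    -- supports in the directions of J for all points of the line
    have hsupp : ∀ y' ∈ bxS S z, (∀ k, k ≠ i0 → y' k = y k) → ∀ j ∈ J, O (mv y' j (τ j)) := by
      intro y' hy' hk j hj
      have hji : j ≠ i0 := fun h => hi0 (h ▸ hj)
      by_cases hin : mv y' j (τ j) ∈ bxS S z
      · refine IH _ ?_ _ hin rfl
        rw [← hm]
        apply Finset.sum_lt_sum
        · intro k hkJ
          have hki : k ≠ i0 := fun h => hi0 (h ▸ hkJ)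
          by_cases hkj : k = j
          · subst hkj
            rw [mv_same, hk k hki]
            have a1 := mem_bxS.1 hin k
            have a2 := mem_bxS.1 hy k
            rw [mv_same, hk k hki] at a1
            simp only [hh]
            rcases hτ k hkJ with hs | hs <;> simp only [hs] at a1 ⊢ <;> norm_num <;> omega
          · rw [mv_ne _ _ hkj, hk k hki]
        · refine ⟨j, hj, ?_⟩
          rw [mv_same, hk j hji]
          have a1 := mem_bxS.1 hin j
          have a2 := mem_bxS.1 hy j
          rw [mv_same, hk j hji] at a1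
          simp only [hh]
          rcases hτ j hj with hs | hs <;> simp only [hs] at a1 ⊢ <;> norm_num <;> omega
      · apply hsup j hj
        have hnot : ¬ (S * z j ≤ y' j + τ j ∧ y' j + τ j < S * z j + S) := by
          intro hc
          apply hin
          rw [mem_bxS]
          intro k
          by_cases hkj : k = j
          · subst hkj; rw [mv_same]; exact hc
          · rw [mv_ne _ _ hkj]; exact mem_bxS.1 hy' k
        rw [mem_bxS]
        intro k
        have a1 := mem_bxS.1 hy' k
        by_cases hkj : k = j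
        · subst hkj
          rw [mv_same, mv_same, mul_add]
          rcases hτ k hj with hs | hs <;> rw [hs] at hnot ⊢ <;> constructor <;> omega
        · rw [mv_ne _ _ hkj, mv_ne _ _ hkj]; exact a1
    obtain ⟨t0, ht1, ht2, ht3⟩ := hline y hy
    have line : ∀ m' : ℕ, ∀ y' ∈ bxS S z, (∀ k, k ≠ i0 → y' k = y k) → (y' i0 - t0).natAbs = m' →
        O y' := by
      intro m'
      induction m' using Nat.strong_induction_on with
      | _ m' IH' =>
      intro y' hy' hk hm'
      by_cases he : y' i0 = t0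
      · have : y' = Function.update y i0 t0 := by
          funext k
          by_cases hki : k = i0
          · subst hki; rw [Function.update_self]; exact he
          · rw [Function.update_of_ne hki]; exact hk k hki
        rw [this]; exact ht3
      · obtain ⟨s, hs, hlt, hr1, hr2⟩ : ∃ s : ℤ, (s = 1 ∨ s = -1) ∧
            (y' i0 + s - t0).natAbs < (y' i0 - t0).natAbs ∧ S * z i0 ≤ y' i0 + s ∧
            y' i0 + s < S * z i0 + S := by
          have a1 := mem_bxS.1 hy' i0
          rcases lt_or_gt_of_ne he with h | h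
          · exact ⟨1, Or.inl rfl, by omega, by omega, by omega⟩
          · exact ⟨-1, Or.inr rfl, by omega, by omega, by omega⟩
        have hO : O (mv y' i0 s) := by
          refine IH' _ (by rw [← hm']; exact hlt) (mv y' i0 s) ?_ ?_ (by rw [mv_same])
          · rw [mem_bxS]
            intro k
            by_cases hki : k = i0
            · subst hki; rw [mv_same]; exact ⟨hr1, hr2⟩
            · rw [mv_ne _ _ hki]; exact mem_bxS.1 hy' k
          · intro k hki
            rw [mv_ne _ _ hki]; exact hk k hki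
        apply hrule y' (hcl y' hy')
        refine ⟨insert i0 J, ?_, ?_⟩
        · rw [Finset.card_insert_of_notMem hi0, hJ]
        · intro j hj
          rcases Finset.mem_insert.1 hj with rfl | hj
          · exact sup_of hs hO
          · exact sup_of (hτ j hj) (hsupp y' hy' hk j hj)
    exact line _ y hy (fun _ _ => rfl) rfl
  intro y hy
  exact key _ y hy rfl

end Pool.Agent.W5h98.Pol
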