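import Mathlib

/-!
Deterministic part of the renormalisation for polluted bootstrap percolation:
hierarchy of blocks with ratio `10`, transport lemma.
-/

set_option autoImplicit false

namespace Pool.Agent.W5h98.Pol
open Finset Relation

/-- Lattice vectors. -/
abbrev V (d : ℕ) := Fin d → ℤ

variable {d : ℕ}

/-- Move by `s` in direction `i`. -/
def mv (x : V d) (i : Fin d) (s : ℤ) : V d := Function.update x i (x i + s)

theorem mv_same (x : V d) (i : Fin d) (s : ℤ) : mv x i s i = x i + s := by
  simp [mv]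

theorem mv_ne (x : V d) {i j : Fin d} (s : ℤ) (h : j ≠ i) : mv x i s j = x j := by
  simp [mv, h]

theorem mv_zero (x : V d) (i : Fin d) : mv x i 0 = x := by
  simp [mv]

/-- `ℓ¹` distance. -/
def D (v h : V d) : ℕ := ∑ i, (v i - h i).natAbs

theorem D_mv_lt {v h : V d} {i : Fin d} {s : ℤ}
    (hs : (v i + s - h i).natAbs < (v i - h i).natAbs) : D (mv v i s) h < D v h := by
  unfold D
  apply Finset.sum_lt_sum
  · intro j _
    by_cases hj : j = i
    · subst hj; rw [mv_same]; exact hs.le
    · rw [mv_ne _ _ hj]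
  · exact ⟨i, Finset.mem_univ _, by rw [mv_same]; exact hs⟩

/-- The sub-block `u` lies in the block `z`. -/
def InB (z u : V d) : Prop := ∀ i, 10 * z i ≤ u i ∧ u i < 10 * z i + 10

/-- The sub-block `u` lies in the enlarged block `z`. -/
def InBp (z u : V d) : Prop := ∀ i, 10 * z i - 3 ≤ u i ∧ u i < 10 * z i + 13

theorem InB.p {z u : V d} (h : InB z u) : InBp z u := by
  intro i
  have := h i
  constructor <;> omega

/-- Bad blocks of level `n`. -/
def badn (b : V d → Prop) : ℕ → V d → Prop
  | 0, z => b z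
  | n + 1, z => ∃ u v, InBp z u ∧ InBp z v ∧ badn b n u ∧ badn b n v ∧ ∃ i, u i + 2 < v i

/-- Coordinate `t` in direction `i` is occupied by a bad sub-block near the block `z`. -/
def ZC (b : V d → Prop) (n : ℕ) (z : V d) (i : Fin d) (t : ℤ) : Prop :=
  ∃ v, InBp z v ∧ badn b n v ∧ v i = t

/-- The excluded box of the block `z` of level `n + 1`. -/
def InZ (b : V d → Prop) (n : ℕ) (z u : V d) : Prop := ∀ i, ZC b n z i (u i)

/-- Filled blocks of level `n`. -/
def fil (b F : V d → Prop) : ℕ → V d → Prop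
  | 0, x => F x
  | n + 1, z => ¬ badn b (n + 1) z ∧ ∀ u, InB z u → ¬ InZ b n z u → fil b F n u

/-- The rule: a good cell with at least `k` supporting directions is filled. -/
def Rule (k : ℕ) (b F : V d → Prop) : Prop :=
  ∀ x, ¬ b x → (∃ A : Finset (Fin d), k ≤ A.card ∧ ∀ i ∈ A, F (mv x i 1) ∨ F (mv x i (-1))) → F x

theorem ZC_diam {b : V d → Prop} {n : ℕ} {z : V d} (hz : ¬ badn b (n + 1) z) {i : Fin d} {t t' : ℤ}
    (h : ZC b n z i t) (h' : ZC b n z i t') : t' ≤ t + 2 := by
  obtain ⟨v, h1, h2, h3⟩ := h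
  obtain ⟨v', h1', h2', h3'⟩ := h'
  by_contra hcon
  apply hz
  exact ⟨v, v', h1, h1', h2, h2', i, by omega⟩

theorem InZ_of_bad {b : V d → Prop} {n : ℕ} {z u : V d} (hu : InBp z u) (h : badn b n u) :
    InZ b n z u := fun _ => ⟨u, hu, h, rfl⟩

theorem InZ_cons {b : V d → Prop} {n : ℕ} {z z' u : V d} (hz' : ¬ badn b (n + 1) z')
    (hu : ∀ i, 10 * z i - 1 ≤ u i ∧ u i ≤ 10 * z i + 10) (h : InZ b n z' u) : InZ b n z u := by
  intro i
  obtain ⟨v, h1, h2, h3⟩ := h i
  refine ⟨v, ?_, h2, h3⟩
  intro j
  have a1 := ZC_diam hz' (h j) ⟨v, h1, h2, rfl⟩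
  have a2 := ZC_diam hz' (⟨v, h1, h2, rfl⟩ : ZC b n z' j (v j)) (h j)
  have := hu j
  constructor <;> omega

/-- One of the two extreme values in direction `i` is safe. -/
theorem safe {b : V d → Prop} {n : ℕ} {z : V d} (hz : ¬ badn b (n + 1) z) (i : Fin d) :
    ∃ f, 10 * z i ≤ f ∧ f < 10 * z i + 10 ∧ ¬ ZC b n z i f := by
  by_contra hcon
  push Not at hcon
  have h1 := hcon (10 * z i) le_rfl (by omega)
  have h2 := hcon (10 * z i + 9) (by omega) (by omega)
  have := ZC_diam hz h1 h2
  omega

/-- A neighbour of a sub-block in a supporting direction is filled. -/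
theorem pred_fill {b F : V d → Prop} {n : ℕ} {z v : V d} {j : Fin d} {s : ℤ} (hs : s = 1 ∨ s = -1)
    (hn : fil b F (n + 1) (mv z j s)) (hv : InB z v) (hout : ¬ InZ b n z (mv v j s))
    (hnb : ¬ InB z (mv v j s)) : fil b F n (mv v j s) := by
  have key : ∀ i, 10 * z i - 1 ≤ mv v j s i ∧ mv v j s i ≤ 10 * z i + 10 := by
    intro i
    have h1 := hv i
    by_cases hij : i = j
    · subst hij; rw [mv_same]; constructor <;> omega
    · rw [mv_ne _ _ hij]; constructor <;> omega
  apply hn.2 _ _ (fun h => hout (InZ_cons hn.1 key h))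
  have hj : ¬ (10 * z j ≤ v j + s ∧ v j + s < 10 * z j + 10) := by
    intro h
    apply hnb
    intro i
    by_cases hij : i = j
    · subst hij; rw [mv_same]; exact h
    · rw [mv_ne _ _ hij]; exact hv i
  intro i
  have h1 := hv i
  by_cases hij : i = j
  · subst hij
    rw [mv_same, mv_same]
    constructor <;> omega
  · rw [mv_ne _ _ hij, mv_ne _ _ hij]
    exact h1

/-- Targets in the supporting directions. -/
def tgt (z : V d) (τ : V d) (j : Fin d) : ℤ := if τ j = 1 then 10 * z j + 10 else 10 * z j - 1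

/-- Moving towards a value inside the block. -/
theorem move_in {z v : V d} {i : Fin d} {f : ℤ} (hv : InB z v) (hf1 : 10 * z i ≤ f)
    (hf2 : f < 10 * z i + 10) (hne : v i ≠ f) : ∃ s : ℤ, (s = 1 ∨ s = -1) ∧ InB z (mv v i s) ∧
      (v i + s - f).natAbs < (v i - f).natAbs := by
  have h1 := hv i
  rcases lt_or_gt_of_ne hne with h | h
  · refine ⟨1, Or.inl rfl, ?_, by omega⟩
    intro k
    by_cases hk : k = i
    · subst hk; rw [mv_same]; constructor <;> omega
    · rw [mv_ne _ _ hk]; exact hv k
  · refine ⟨-1, Or.inr rfl, ?_, by omega⟩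
    intro k
    by_cases hk : k = i
    · subst hk; rw [mv_same]; constructor <;> omega
    · rw [mv_ne _ _ hk]; exact hv k

theorem sup_of {F : V d → Prop} {x : V d} {i : Fin d} {s : ℤ} (hs : s = 1 ∨ s = -1)
    (h : F (mv x i s)) : F (mv x i 1) ∨ F (mv x i (-1)) := by
  rcases hs with rfl | rfl
  · exact Or.inl h
  · exact Or.inr h

/-- Transport lemma: the rule passes to every level of the hierarchy. -/
theorem transport {k : ℕ} (hk : k < d) {b F : V d → Prop} (h : Rule k b F) :
    ∀ n, Rule k (badn b n) (fil b F n) := by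
  intro n
  induction n with
  | zero => exact h
  | succ n ih =>
    rintro z hz ⟨A, hA, hsup⟩
    obtain ⟨J, hJA, hJ⟩ := Finset.exists_subset_card_eq hA
    have hi0 : ∃ i0, i0 ∉ J := by
      by_contra hcon
      push Not at hcon
      have : J = Finset.univ := Finset.eq_univ_iff_forall.2 hcon
      rw [this, Finset.card_univ, Fintype.card_fin] at hJ
      omega
    obtain ⟨i0, hi0⟩ := hi0
    have hτ : ∀ j, ∃ s : ℤ, j ∈ J → ((s = 1 ∨ s = -1) ∧ fil b F (n + 1) (mv z j s)) := by
      intro j
      by_cases hj : j ∈ J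
      · rcases hsup j (hJA hj) with h1 | h1
        · exact ⟨1, fun _ => ⟨Or.inl rfl, h1⟩⟩
        · exact ⟨-1, fun _ => ⟨Or.inr rfl, h1⟩⟩
      · exact ⟨0, fun h => absurd h hj⟩
    choose τ hτ using hτ
    obtain ⟨f, hf1, hf2, hf3⟩ := safe hz i0
    refine ⟨hz, ?_⟩
    set h : V d := fun i => if i = i0 then f else tgt z τ i with hdef
    intro v hv hvZ
    induction hm : D v h using Nat.strong_induction_on generalizing v with
    | _ m IH =>
    have hpred : ∀ j ∈ J, ¬ InZ b n z (mv v j (τ j)) → fil b F n (mv v j (τ j)) := by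
      intro j hj hout
      obtain ⟨hs, hfil⟩ := hτ j hj
      have hji : j ≠ i0 := fun h => hi0 (h ▸ hj)
      by_cases hin : InB z (mv v j (τ j))
      · refine IH _ ?_ _ hin hout rfl
        rw [← hm]
        apply D_mv_lt
        have h1 := hin j
        have h2 := hv j
        rw [mv_same] at h1
        simp only [hdef, hji, if_false, tgt]
        rcases hs with hs | hs <;> simp only [hs] at h1 ⊢ <;> norm_num <;> omega
      · exact pred_fill hs hfil hv hout hin
    have hvb : ¬ badn b n v := fun hb => hvZ (InZ_of_bad hv.p hb)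
    apply ih v hvb
    by_cases hall : ∀ j ∈ J, ¬ InZ b n z (mv v j (τ j))
    · exact ⟨J, hJ.ge, fun j hj => sup_of (hτ j hj).1 (hpred j hj (hall j hj))⟩
    · push Not at hall
      obtain ⟨j0, hj0, hZ⟩ := hall
      have hZC : ∀ i, i ≠ j0 → ZC b n z i (v i) := by
        intro i hi
        have := hZ i
        rwa [mv_ne _ _ hi] at this
      have hj0n : ¬ ZC b n z j0 (v j0) := by
        intro hc
        apply hvZ
        intro i
        by_cases hi : i = j0
        · subst hi; exact hc
        · exact hZC i hi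
      have hij : i0 ≠ j0 := fun h => hi0 (h ▸ hj0)
      have hne : v i0 ≠ f := fun h => hf3 (h ▸ hZC i0 hij)
      obtain ⟨s, hs, hin, hlt⟩ := move_in hv hf1 hf2 hne
      have hfi : fil b F n (mv v i0 s) := by
        refine IH _ ?_ _ hin ?_ rfl
        · rw [← hm]
          apply D_mv_lt
          simp only [hdef, if_true]
          exact hlt
        · intro hc
          apply hj0n
          have := hc j0
          rwa [mv_ne _ _ hij.symm] at this
      refine ⟨insert i0 (J.erase j0), ?_, ?_⟩
      · rw [Finset.card_insert_of_notMem (fun h => hi0 (Finset.mem_of_mem_erase h)),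
          Finset.card_erase_of_mem hj0, hJ]
        have : 0 < J.card := Finset.card_pos.2 ⟨j0, hj0⟩
        omega
      · intro i hi
        rcases Finset.mem_insert.1 hi with rfl | hi
        · exact sup_of hs hfi
        · obtain ⟨h1, h2⟩ := Finset.mem_erase.1 hi
          refine sup_of (hτ i h2).1 (hpred i h2 ?_)
          intro hc
          apply hj0n
          have := hc j0
          rwa [mv_ne _ _ h1.symm] at this

end Pool.Agent.W5h98.Pol
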