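import Pool.Agent.W5h98.Pol.Base

/-!
The case `r = d`.
-/

set_option autoImplicit false

namespace Pool.Agent.W5h98.Pol
open MeasureTheory ProbabilityTheory Finset Filter Topology
open Pool.Agent.Results.MP_faaa3e_pr.DenseClosedSites (siteLaw occupied φ siteLaw_prob)

variable {d : ℕ}

/-- Bad blocks at scale `S`: there is a closed site, or a line without a site of type `d`. -/
def bbad (d : ℕ) (S : ℤ) (ω : Om d) (z : V d) : Prop :=
  (∃ y ∈ bxS S z, ω (y, 0) = true) ∨
    ∃ i, ∃ y ∈ bxS S z, ∀ t ∈ Finset.Ico (S * z i) (S * z i + S),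
      ω (Function.update y i t, d) = false

theorem bbad_dep (hd : 1 ≤ d) {S : ℤ} (hS : 1 ≤ S) (z : V d) :
    Dep (LocF (d - 1) d S z : Set (V d × ℕ)) {ω | bbad d S ω z} := by
  have hspace : ∀ y ∈ bxS S z, ∀ i, S * (z i - 1) ≤ y i ∧ y i < S * (z i + 2) := by
    intro y hy i
    have := mem_bxS.1 hy i
    constructor <;> nlinarith [this.1, this.2]
  intro ω ω' h h1
  rcases h1 with ⟨y, hy, h1⟩ | ⟨i, y, hy, h1⟩
  · refine Or.inl ⟨y, hy, ?_⟩
    rw [← h (y, 0) ?_]
    · exact h1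
    · rw [Finset.mem_coe, mem_LocF]
      exact ⟨hspace y hy, by simp, Or.inl rfl⟩
  · refine Or.inr ⟨i, y, hy, fun t ht => ?_⟩
    rw [← h (Function.update y i t, d) ?_]
    · exact h1 t ht
    · rw [Finset.mem_coe, mem_LocF]
      refine ⟨hspace _ ?_, le_rfl, Or.inr (by simp only; omega)⟩
      rw [mem_bxS]
      intro k
      simp only
      by_cases hk : k = i
      · subst hk; rw [Function.update_self]; exact Finset.mem_Ico.1 ht
      · rw [Function.update_of_ne hk]; exact mem_bxS.1 hy k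

theorem bbad_prob (hd : 1 ≤ d) {q ρ : Set.Icc (0 : ℝ) 1} {S : ℕ} (z : V d) :
    (Pr d (law q ρ)).real {ω | bbad d (S : ℤ) ω z} ≤
      (S : ℝ) ^ d * q + d * ((S : ℝ) ^ d * (1 - (ρ : ℝ)) ^ S) := by
  classical
  have h1 : ∀ y : V d, (Pr d (law q ρ)).real {ω | ω (y, 0) = true} = q := by
    intro y
    have e : {ω : Om d | ω (y, 0) = true} =
        Set.pi (({(y, 0)} : Finset (V d × ℕ)) : Set (V d × ℕ)) (fun _ => {true}) := by
      ext ω
      simp
    rw [measureReal_def, e, Pr, Measure.infinitePi_pi _ (fun _ _ => measurableSet_singleton _),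
      Finset.prod_singleton]
    simp only [law_zero, bern_true]
    rw [ENNReal.toReal_ofReal q.2.1]
  have h2 : ∀ (i : Fin d) (y : V d), (Pr d (law q ρ)).real
      {ω | ∀ t ∈ Finset.Ico ((S : ℤ) * z i) (S * z i + S), ω (Function.update y i t, d) = false} =
      (1 - (ρ : ℝ)) ^ S := by
    intro i y
    set g : ℤ → V d × ℕ := fun t => (Function.update y i t, d) with hg
    have hinj : Function.Injective g := by
      intro t t' h
      have := congrFun (Prod.ext_iff.1 h).1 i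
      simpa [hg] using this
    have e : {ω : Om d | ∀ t ∈ Finset.Ico ((S : ℤ) * z i) (S * z i + S),
        ω (Function.update y i t, d) = false} =
        Set.pi (((Finset.Ico ((S : ℤ) * z i) (S * z i + S)).image g : Finset (V d × ℕ)) :
          Set (V d × ℕ)) (fun _ => {false}) := by
      ext ω
      simp only [Set.mem_ofPred_eq, Finset.coe_image, Set.mem_pi, Set.mem_image, Finset.mem_coe,
        Set.mem_singleton_iff]
      constructor
      · rintro h _ ⟨t, ht, rfl⟩; exact h t ht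
      · intro h t ht; exact h _ ⟨t, ht, rfl⟩
    rw [measureReal_def, e, Pr, Measure.infinitePi_pi _ (fun _ _ => measurableSet_singleton _),
      Finset.prod_image (fun _ _ _ _ h => hinj h)]
    simp only [hg]
    rw [Finset.prod_congr rfl (g := fun _ => ENNReal.ofReal (1 - ρ))]
    · rw [Finset.prod_const, Int.card_Ico, ENNReal.toReal_pow,
        ENNReal.toReal_ofReal (by linarith [ρ.2.2])]
      congr 1
      have : (S : ℤ) * z i + S - S * z i = S := by ring
      rw [this]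
      simp
    · intro t _
      rw [law_pos _ _ hd, bern_false]
  have hsub : {ω | bbad d (S : ℤ) ω z} ⊆ (⋃ y ∈ bxS (S : ℤ) z, {ω | ω (y, 0) = true}) ∪
      ⋃ i ∈ (Finset.univ : Finset (Fin d)), ⋃ y ∈ bxS (S : ℤ) z,
        {ω | ∀ t ∈ Finset.Ico ((S : ℤ) * z i) (S * z i + S), ω (Function.update y i t, d) = false} := by
    rintro ω (⟨y, hy, h⟩ | ⟨i, y, hy, h⟩)
    · exact Or.inl (Set.mem_biUnion hy h)
    · exact Or.inr (Set.mem_biUnion (Finset.mem_coe.2 (Finset.mem_univ i)) (Set.mem_biUnion hy h))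
  have hcard : ((bxS (S : ℤ) z).card : ℝ) = (S : ℝ) ^ d := by
    rw [card_bxS]; simp
  calc (Pr d (law q ρ)).real {ω | bbad d (S : ℤ) ω z}
      ≤ _ := measureReal_mono hsub (measure_ne_top _ _)
    _ ≤ _ := measureReal_union_le _ _
    _ ≤ ∑ y ∈ bxS (S : ℤ) z, (Pr d (law q ρ)).real {ω | ω (y, 0) = true} +
        ∑ i : Fin d, (Pr d (law q ρ)).real (⋃ y ∈ bxS (S : ℤ) z,
        {ω | ∀ t ∈ Finset.Ico ((S : ℤ) * z i) (S * z i + S),
          ω (Function.update y i t, d) = false}) :=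
        add_le_add (measureReal_biUnion_finset_le _ _) (measureReal_biUnion_finset_le _ _)
    _ ≤ (S : ℝ) ^ d * q + ∑ i : Fin d, (S : ℝ) ^ d * (1 - (ρ : ℝ)) ^ S := by
        apply add_le_add
        · rw [Finset.sum_congr rfl (fun y _ => h1 y), Finset.sum_const, nsmul_eq_mul, hcard]
        · apply Finset.sum_le_sum
          intro i _
          refine le_trans (measureReal_biUnion_finset_le _ _) ?_
          rw [Finset.sum_congr rfl (fun y _ => h2 i y), Finset.sum_const, nsmul_eq_mul, hcard]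
    _ = _ := by rw [Finset.sum_const, Finset.card_univ, Fintype.card_fin, nsmul_eq_mul]

/-- Base case `r = d`. -/
theorem conv_eq (hd : 2 ≤ d) (ε : ℝ) (hε : 0 < ε) : ∃ δ : ℝ, 0 < δ ∧
    ∀ p q : ℝ, 0 < p → 0 ≤ q → q < 1 → p + q ≤ 1 → ∀ S : ℕ, 1 ≤ S →
      (S : ℝ) ^ d * q + d * ((S : ℝ) ^ d * (1 - p / d) ^ S) ≤ δ →
      ENNReal.ofReal (1 - ε) ≤ φ d d p q := by
  obtain ⟨δ, hδ, H⟩ := stage (d := d) (d - 1) (by omega) ε hε
  refine ⟨δ, hδ, ?_⟩
  intro p q hp hq hq1 hpq S hS hbd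
  obtain ⟨ρ, h1, h2, h3⟩ := exists_rho (r := d) (by omega) hp hq hpq hq1
  set q' : Set.Icc (0 : ℝ) 1 := ⟨q, hq, hq1.le⟩ with hq'
  have hSZ : (1 : ℤ) ≤ (S : ℤ) := by exact_mod_cast hS
  refine φ_ge (q := q') (ρ := ρ) (p := p) d hp.le hpq h1 ?_
  refine le_trans (measureReal_mono ?_ (measure_ne_top _ _))
    (H (law q' ρ) ?_ d (by omega) S hSZ (bbad d S) (bbad_dep (by omega) hSZ) ?_
    (fun ω z => ∀ y ∈ bxS (S : ℤ) z, occ d ω y) ?_ ?_)
  · intro ω hω hF
    apply hω
    exact hF 0 (by rw [mem_bxS]; intro i; simp; omega)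
  · intro j hj _
    rw [law_pos _ _ hj, measureReal_def, bern_true, ENNReal.toReal_ofReal h2.le]
    exact h2
  · intro z
    refine le_trans (bbad_prob (by omega) z) (le_trans ?_ hbd)
    have : (1 - (ρ : ℝ)) ^ S ≤ (1 - p / d) ^ S := pow_le_pow_left₀ (by linarith [ρ.2.2]) h3 S
    have e : ((q' : Set.Icc (0 : ℝ) 1) : ℝ) = q := rfl
    rw [e]
    gcongr
  · rintro ω z hz ⟨A, hA, hsup⟩
    have hcl : ∀ y ∈ bxS (S : ℤ) z, ¬ ω (y, 0) = true := fun y hy h => hz (Or.inl ⟨y, hy, h⟩)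
    obtain ⟨J, hJA, hJ⟩ := Finset.exists_subset_card_eq hA
    obtain ⟨i0, hi0⟩ : ∃ i0, i0 ∉ J := by
      by_contra hcon
      push Not at hcon
      have : J = Finset.univ := Finset.eq_univ_iff_forall.2 hcon
      rw [this, Finset.card_univ, Fintype.card_fin] at hJ
      omega
    have hτ : ∀ j, ∃ s : ℤ, j ∈ J → ((s = 1 ∨ s = -1) ∧ ∀ y ∈ bxS (S : ℤ) (mv z j s), occ d ω y) := by
      intro j
      by_cases hj : j ∈ J
      · rcases hsup j (hJA hj) with h1 | h1
        · exact ⟨1, fun _ => ⟨Or.inl rfl, h1⟩⟩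
        · exact ⟨-1, fun _ => ⟨Or.inr rfl, h1⟩⟩
      · exact ⟨0, fun h => absurd h hj⟩
    choose τ hτ using hτ
    refine block_fill (occ_rule d ω) hi0 (by omega) (fun j hj => (hτ j hj).1)
      (fun j hj => (hτ j hj).2) hcl ?_
    intro y hy
    by_contra hcon
    push Not at hcon
    apply hz
    refine Or.inr ⟨i0, y, hy, fun t ht => ?_⟩
    obtain ⟨ht1, ht2⟩ := Finset.mem_Ico.1 ht
    by_contra hf
    have hf' : ω (Function.update y i0 t, d) = true := by
      rcases Bool.eq_false_or_eq_true (ω (Function.update y i0 t, d)) with h | h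
      · exact h
      · exact absurd h hf
    refine hcon t ht1 ht2 (occ_of_type (hcl _ ?_) (by omega) le_rfl hf')
    rw [mem_bxS]
    intro k
    by_cases hk : k = i0
    · subst hk; rw [Function.update_self]; exact ⟨ht1, ht2⟩
    · rw [Function.update_of_ne hk]; exact mem_bxS.1 hy k
  · rintro ω z hz ⟨j, hj1, hj2, hs⟩ y hy
    exact occ_of_type (fun h => hz (Or.inl ⟨y, hy, h⟩)) hj1 (by omega) (hs y hy)

end Pool.Agent.W5h98.Pol
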