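import Pool.Agent.W5h98.Pol.Stg
import Pool.Agent.Results.MP_faaa3e_pr.DenseClosedSites

/-!
The law of the polluted configuration as an image of a Boolean product measure.
-/

set_option autoImplicit false

namespace Pool.Agent.W5h98.Pol
open MeasureTheory ProbabilityTheory Finset Filter Topology
open Pool.Agent.Results.MP_faaa3e_pr.DenseClosedSites (siteLaw occupied φ siteLaw_prob)

variable {d : ℕ}

/-- Bernoulli law. -/
noncomputable def bern (a : Set.Icc (0 : ℝ) 1) : Measure Bool :=
  ENNReal.ofReal a • Measure.dirac true + ENNReal.ofReal (1 - a) • Measure.dirac false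

instance (a : Set.Icc (0 : ℝ) 1) : IsProbabilityMeasure (bern a) := by
  constructor
  unfold bern
  simp only [Measure.coe_add, Measure.coe_smul, Pi.add_apply, Pi.smul_apply, measure_univ,
    smul_eq_mul, mul_one]
  rw [← ENNReal.ofReal_add a.2.1 (by linarith [a.2.2])]
  simp

theorem bern_true (a : Set.Icc (0 : ℝ) 1) : bern a {true} = ENNReal.ofReal a := by
  unfold bern; simp

theorem bern_false (a : Set.Icc (0 : ℝ) 1) : bern a {false} = ENNReal.ofReal (1 - a) := by
  unfold bern; simp

/-- Type `0` has parameter `q`, the other types have parameter `ρ`. -/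
noncomputable def law (q ρ : Set.Icc (0 : ℝ) 1) (j : ℕ) : Measure Bool :=
  if j = 0 then bern q else bern ρ

instance (q ρ : Set.Icc (0 : ℝ) 1) (j : ℕ) : IsProbabilityMeasure (law q ρ j) := by
  unfold law; split_ifs <;> infer_instance

theorem law_zero (q ρ : Set.Icc (0 : ℝ) 1) : law q ρ 0 = bern q := rfl

theorem law_pos (q ρ : Set.Icc (0 : ℝ) 1) {j : ℕ} (hj : 1 ≤ j) : law q ρ j = bern ρ := by
  unfold law; rw [if_neg (by omega)]

open Classical in
/-- The state of a site. -/
noncomputable def st (r : ℕ) (ω : Om d) (x : V d) : Fin 3 :=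
  if ω (x, 0) = true then 1 else if ∃ j, 1 ≤ j ∧ j ≤ r ∧ ω (x, j) = true then 0 else 2

theorem st_dep (r : ℕ) (x : V d) (A : Set (Fin 3)) :
    Dep (({x} ×ˢ Finset.range (r + 1) : Finset (V d × ℕ)) : Set (V d × ℕ)) {ω | st r ω x ∈ A} := by
  intro ω ω' h h1
  have e : ∀ j, j ≤ r → ω (x, j) = ω' (x, j) := fun j hj => h _ (by
    rw [Finset.mem_coe, Finset.mem_product]
    exact ⟨Finset.mem_singleton_self x, Finset.mem_range.2 (by omega)⟩)
  have : st r ω x = st r ω' x := by
    unfold st
    rw [e 0 (by omega)]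
    have h2 : (∃ j, 1 ≤ j ∧ j ≤ r ∧ ω (x, j) = true) ↔ (∃ j, 1 ≤ j ∧ j ≤ r ∧ ω' (x, j) = true) := by
      constructor
      · rintro ⟨j, h1, h2, h3⟩; exact ⟨j, h1, h2, by rw [← e j h2]; exact h3⟩
      · rintro ⟨j, h1, h2, h3⟩; exact ⟨j, h1, h2, by rw [e j h2]; exact h3⟩
    by_cases h3 : ω' (x, 0) = true
    · rw [if_pos h3, if_pos h3]
    · rw [if_neg h3, if_neg h3]
      by_cases h4 : ∃ j, 1 ≤ j ∧ j ≤ r ∧ ω' (x, j) = true
      · rw [if_pos h4, if_pos (h2.2 h4)]
      · rw [if_neg h4, if_neg (fun h => h4 (h2.1 h))]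
  show st r ω' x ∈ A
  rw [← this]; exact h1

theorem measurable_st (r : ℕ) : Measurable (fun (ω : Om d) (x : V d) => st r ω x) := by
  rw [measurable_pi_iff]
  intro x
  apply measurable_to_countable'
  intro c
  exact (st_dep r x {c}).meas

variable {q ρ : Set.Icc (0 : ℝ) 1} {p : ℝ}

theorem st_two (r : ℕ) (x : V d) (h : (1 - (q : ℝ)) * (1 - (ρ : ℝ)) ^ r = 1 - p - q) :
    Pr d (law q ρ) {ω | st r ω x = 2} = ENNReal.ofReal (1 - p - q) := by
  have e : {ω : Om d | st r ω x = 2} =
      Set.pi (({x} ×ˢ Finset.range (r + 1) : Finset (V d × ℕ)) : Set (V d × ℕ)) (fun _ => {false}) := by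
    ext ω
    constructor
    · intro h1 t ht
      have ht' : t ∈ ({x} : Finset (V d)) ×ˢ Finset.range (r + 1) := by exact_mod_cast ht
      obtain ⟨h2, h3⟩ := Finset.mem_product.1 ht'
      have h2' : t.1 = x := Finset.mem_singleton.1 h2
      have h3' : t.2 < r + 1 := Finset.mem_range.1 h3
      obtain ⟨t1, t2⟩ := t
      simp only at h2' h3'
      subst h2'
      by_contra hcon
      have hcon' : ω (t1, t2) = true := by
        rcases Bool.eq_false_or_eq_true (ω (t1, t2)) with h | h
        · exact h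
        · exact absurd h hcon
      have h1' : st r ω t1 = 2 := h1
      unfold st at h1'
      by_cases h0 : t2 = 0
      · subst h0
        rw [if_pos hcon'] at h1'
        exact absurd h1' (by decide)
      · by_cases h00 : ω (t1, 0) = true
        · rw [if_pos h00] at h1'
          exact absurd h1' (by decide)
        · rw [if_neg h00, if_pos ⟨t2, by omega, by omega, hcon'⟩] at h1'
          exact absurd h1' (by decide)
    · intro h1
      have key : ∀ j, j ≤ r → ω (x, j) = false := by
        intro j hj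
        exact h1 (x, j) (by
          rw [Finset.mem_coe, Finset.mem_product]
          exact ⟨Finset.mem_singleton_self x, Finset.mem_range.2 (by omega)⟩)
      show st r ω x = 2
      unfold st
      rw [if_neg (by rw [key 0 (by omega)]; simp), if_neg]
      rintro ⟨j, _, h2, h3⟩
      rw [key j h2] at h3
      exact absurd h3 (by simp)
  rw [e, Pr, Measure.infinitePi_pi _ (fun _ _ => measurableSet_singleton _),
    Finset.prod_product, Finset.prod_singleton, Finset.prod_range_succ']
  simp only [law_zero, bern_false]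
  rw [Finset.prod_congr rfl (g := fun _ => ENNReal.ofReal (1 - ρ))]
  · rw [Finset.prod_const, Finset.card_range, ← ENNReal.ofReal_pow (by linarith [ρ.2.2]),
      ← ENNReal.ofReal_mul (pow_nonneg (by linarith [ρ.2.2]) _), ← h, mul_comm]
  · intro j _
    rw [law_pos _ _ (by omega), bern_false]

theorem st_one (r : ℕ) (x : V d) :
    Pr d (law q ρ) {ω | st r ω x = 1} = ENNReal.ofReal q := by
  have e : {ω : Om d | st r ω x = 1} =
      Set.pi (({(x, 0)} : Finset (V d × ℕ)) : Set (V d × ℕ)) (fun _ => {true}) := by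
    ext ω
    simp only [Finset.coe_singleton, Set.singleton_pi, Set.mem_preimage, Function.eval,
      Set.mem_singleton_iff, Set.mem_ofPred_eq]
    unfold st
    by_cases h0 : ω (x, 0) = true
    · simp [h0]
    · rw [if_neg h0]
      constructor
      · intro h1
        split_ifs at h1 <;> exact absurd h1 (by decide)
      · intro h1; exact absurd h1 h0
  rw [e, Pr, Measure.infinitePi_pi _ (fun _ _ => measurableSet_singleton _), Finset.prod_singleton]
  simp only [law_zero, bern_true]

theorem st_map (r : ℕ) (x : V d) (hp : 0 ≤ p) (hpq : p + q ≤ 1)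
    (h : (1 - (q : ℝ)) * (1 - (ρ : ℝ)) ^ r = 1 - p - q) (A : Set (Fin 3)) :
    Pr d (law q ρ) {ω | st r ω x ∈ A} = siteLaw p q A := by
  have hm : Measurable (fun ω : Om d => st r ω x) := (measurable_pi_apply x).comp (measurable_st r)
  have : IsProbabilityMeasure (siteLaw p q) := siteLaw_prob hp q.2.1 hpq
  have hmp : IsProbabilityMeasure ((Pr d (law q ρ)).map (fun ω : Om d => st r ω x)) :=
    Measure.isProbabilityMeasure_map hm.aemeasurable
  have e1 : (Pr d (law q ρ)).map (fun ω : Om d => st r ω x) {1} = siteLaw p q {1} := by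
    rw [Measure.map_apply hm (measurableSet_singleton _)]
    have := st_one (q := q) (ρ := ρ) r x
    rw [show (fun ω : Om d => st r ω x) ⁻¹' {1} = {ω | st r ω x = 1} from rfl, this]
    unfold siteLaw
    simp
  have e2 : (Pr d (law q ρ)).map (fun ω : Om d => st r ω x) {2} = siteLaw p q {2} := by
    rw [Measure.map_apply hm (measurableSet_singleton _)]
    have := st_two (q := q) (ρ := ρ) r x h
    rw [show (fun ω : Om d => st r ω x) ⁻¹' {2} = {ω | st r ω x = 2} from rfl, this]
    unfold siteLaw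
    simp
  have e0 : (Pr d (law q ρ)).map (fun ω : Om d => st r ω x) {0} = siteLaw p q {0} := by
    have key : ∀ μ : Measure (Fin 3), IsProbabilityMeasure μ → μ {0} = 1 - (μ {1} + μ {2}) := by
      intro μ _
      have h1 : μ {0} = 1 - μ {0}ᶜ := by
        rw [prob_compl_eq_one_sub (measurableSet_singleton _)]
        rw [ENNReal.sub_sub_cancel (by simp) prob_le_one]
      rw [h1]
      congr 1
      rw [← measure_union (by simp) (measurableSet_singleton _)]
      congr 1
      ext i
      fin_cases i <;> simp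
    rw [key _ hmp, key _ this, e1, e2]
  have eall : (Pr d (law q ρ)).map (fun ω : Om d => st r ω x) = siteLaw p q := by
    apply Measure.ext_of_singleton
    intro i
    fin_cases i
    · exact e0
    · exact e1
    · exact e2
  rw [← eall, Measure.map_apply hm (Set.toFinite A).measurableSet]
  rfl

theorem map_st (r : ℕ) (hp : 0 ≤ p) (hpq : p + q ≤ 1)
    (h : (1 - (q : ℝ)) * (1 - (ρ : ℝ)) ^ r = 1 - p - q) :
    (Pr d (law q ρ)).map (fun (ω : Om d) (x : V d) => st r ω x) =
      Measure.infinitePi (fun _ : V d => siteLaw p q) := by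
  classical
  have hprob : IsProbabilityMeasure (siteLaw p q) := siteLaw_prob hp q.2.1 hpq
  apply Measure.eq_infinitePi
  intro s t ht
  rw [Measure.map_apply (measurable_st r) (MeasurableSet.pi s.countable_toSet fun i _ => ht i)]
  have hpre : (fun (ω : Om d) (x : V d) => st r ω x) ⁻¹' (Set.pi s t) =
      {ω | ∀ x ∈ s, st r ω x ∈ t x} := by
    ext ω; simp [Set.mem_pi]
  rw [hpre]
  induction s using Finset.induction_on with
  | empty => simp
  | insert x s hx ih =>
    have e : {ω : Om d | ∀ x' ∈ insert x s, st r ω x' ∈ t x'} =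
        {ω | st r ω x ∈ t x} ∩ {ω | ∀ x' ∈ s, st r ω x' ∈ t x'} := by
      ext ω
      simp only [Finset.mem_insert, forall_eq_or_imp, Set.mem_ofPred_eq, Set.mem_inter_iff]
    have hdep2 : Dep ((s ×ˢ Finset.range (r + 1) : Finset (V d × ℕ)) : Set (V d × ℕ))
        {ω | ∀ x' ∈ s, st r ω x' ∈ t x'} := by
      intro ω ω' h1 h2 x' hx'
      refine st_dep r x' (t x') ω ω' ?_ (h2 x' hx')
      intro y hy
      apply h1
      rw [Finset.mem_coe, Finset.mem_product] at hy ⊢
      exact ⟨by rw [Finset.mem_singleton.1 hy.1]; exact hx', hy.2⟩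
    have hdisj : Disjoint (({x} : Finset (V d)) ×ˢ Finset.range (r + 1)) (s ×ˢ Finset.range (r + 1)) := by
      rw [Finset.disjoint_left]
      intro y h1 h2
      have h3 := Finset.mem_singleton.1 (Finset.mem_product.1 h1).1
      exact hx (h3 ▸ (Finset.mem_product.1 h2).1)
    have hind := (st_dep r x (t x)).indep (fun t : V d × ℕ => law q ρ t.2) hdep2 hdisj
    have hind' : Pr d (law q ρ) ({ω | st r ω x ∈ t x} ∩ {ω | ∀ x' ∈ s, st r ω x' ∈ t x'}) =
      Pr d (law q ρ) {ω | st r ω x ∈ t x} * Pr d (law q ρ) {ω | ∀ x' ∈ s, st r ω x' ∈ t x'} := hind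
    rw [e, hind', ih, Finset.prod_insert hx, st_map r x hp hpq h]
    ext ω; simp [Set.mem_pi]

/-- Lower bound for `φ`. -/
theorem φ_ge (r : ℕ) (hp : 0 ≤ p) (hpq : p + q ≤ 1)
    (h : (1 - (q : ℝ)) * (1 - (ρ : ℝ)) ^ r = 1 - p - q) {ε : ℝ}
    (hε : (Pr d (law q ρ)).real {ω | ¬ ∃ t, (0 : V d) ∈ occupied d r (st r ω) t} ≤ ε) :
    ENNReal.ofReal (1 - ε) ≤ φ d r p q := by
  have h1 : Pr d (law q ρ) {ω | ∃ t, (0 : V d) ∈ occupied d r (st r ω) t} ≤ φ d r p q := by
    have h2 := Measure.le_map_apply (μ := Pr d (law q ρ)) (measurable_st r).aemeasurable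
      {η : V d → Fin 3 | ∃ t, (0 : V d) ∈ occupied d r η t}
    rw [map_st r hp hpq h] at h2
    exact h2
  refine le_trans ?_ h1
  have h3 : (1 : ENNReal) ≤ Pr d (law q ρ) {ω | ∃ t, (0 : V d) ∈ occupied d r (st r ω) t} +
      Pr d (law q ρ) {ω | ¬ ∃ t, (0 : V d) ∈ occupied d r (st r ω) t} := by
    have h4 : Pr d (law q ρ) Set.univ = 1 := measure_univ
    rw [← h4]
    refine le_trans (measure_mono ?_) (measure_union_le _ _)
    intro ω _
    exact em _
  have h5 : Pr d (law q ρ) {ω | ¬ ∃ t, (0 : V d) ∈ occupied d r (st r ω) t} ≤ ENNReal.ofReal ε := by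
    rw [← ENNReal.ofReal_toReal (measure_ne_top (Pr d (law q ρ))
      {ω | ¬ ∃ t, (0 : V d) ∈ occupied d r (st r ω) t})]
    exact ENNReal.ofReal_le_ofReal hε
  have hε0 : 0 ≤ ε := le_trans measureReal_nonneg hε
  rw [ENNReal.ofReal_sub _ hε0, ENNReal.ofReal_one]
  rw [tsub_le_iff_right]
  exact h3.trans (by gcongr)

end Pool.Agent.W5h98.Pol
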