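import Pool.Agent.W5h98.Pol.Seed

/-!
The probabilistic renormalisation.
-/

set_option autoImplicit false

namespace Pool.Agent.W5h98.Pol
open MeasureTheory ProbabilityTheory Finset Filter Topology

variable {d : ℕ}

/-- The coordinates on which the status of the cell `z` at scale `S` may depend. -/
noncomputable def LocF (κ N : ℕ) (S : ℤ) (z : V d) : Finset (V d × ℕ) :=
  (Fintype.piFinset (fun i => Finset.Ico (S * (z i - 1)) (S * (z i + 2)))) ×ˢ
    ((Finset.range (N + 1)).filter (fun j => j = 0 ∨ κ < j))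

theorem mem_LocF {κ N : ℕ} {S : ℤ} {z : V d} {t : V d × ℕ} : t ∈ LocF κ N S z ↔
    (∀ i, S * (z i - 1) ≤ t.1 i ∧ t.1 i < S * (z i + 2)) ∧ t.2 ≤ N ∧ (t.2 = 0 ∨ κ < t.2) := by
  unfold LocF
  rw [Finset.mem_product, Fintype.mem_piFinset, Finset.mem_filter, Finset.mem_range]
  simp only [Finset.mem_Ico, Nat.lt_succ_iff]

theorem pos_pow {S : ℤ} (hS : 1 ≤ S) (n : ℕ) : 1 ≤ S * 10 ^ n := by
  have h1 : (1 : ℤ) ≤ 10 ^ n := one_le_pow₀ (by norm_num)
  nlinarith

theorem LocF_sub {κ N n : ℕ} {S : ℤ} (hS : 1 ≤ S) {z x : V d} (h : Loc n z x) :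
    LocF κ N S x ⊆ LocF κ N (S * 10 ^ n) z := by
  intro t ht
  rw [mem_LocF] at ht ⊢
  refine ⟨fun i => ?_, ht.2⟩
  have h1 := ht.1 i
  have h2 := h i
  have e1 : S * 10 ^ n * (z i - 1) = S * (10 ^ n * (z i - 1)) := by ring
  have e2 : S * 10 ^ n * (z i + 2) = S * (10 ^ n * (z i + 2)) := by ring
  rw [e1, e2]
  have a1 : S * (10 ^ n * (z i - 1)) ≤ S * (x i - 1) :=
    mul_le_mul_of_nonneg_left (by linarith [h2.1]) (by omega)
  have a2 : S * (x i + 2) ≤ S * (10 ^ n * (z i + 2)) :=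
    mul_le_mul_of_nonneg_left (by linarith [h2.2]) (by omega)
  constructor <;> linarith [h1.1, h1.2]

theorem LocF_disj {κ N : ℕ} {S : ℤ} (hS : 1 ≤ S) {u v : V d} {i : Fin d} (h : u i + 2 < v i) :
    Disjoint (LocF κ N S u) (LocF κ N S v) := by
  rw [Finset.disjoint_left]
  intro t h1 h2
  rw [mem_LocF] at h1 h2
  have a1 := (h1.1 i).2
  have a2 := (h2.1 i).1
  have a3 : S * (u i + 2) ≤ S * (v i - 1) := mul_le_mul_of_nonneg_left (by omega) (by omega)
  linarith

theorem badn_dep {κ N : ℕ} {S : ℤ} (hS : 1 ≤ S) {b : Om d → V d → Prop}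
    (hb : ∀ z, Dep (LocF κ N S z : Set (V d × ℕ)) {ω | b ω z}) (n : ℕ) (z : V d) :
    Dep (LocF κ N (S * 10 ^ n) z : Set (V d × ℕ)) {ω | badn (b ω) n z} := by
  intro ω ω' h h1
  refine (badn_congr n z fun x hx => ?_).1 h1
  exact (hb x).iff fun t ht => h t (LocF_sub hS hx ht)

/-- The sub-blocks of the enlarged block. -/
noncomputable def blkp (z : V d) : Finset (V d) :=
  Fintype.piFinset (fun i => Finset.Ico (10 * z i - 3) (10 * z i + 13))

theorem mem_blkp {z u : V d} : u ∈ blkp z ↔ InBp z u := by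
  unfold blkp InBp
  simp [Fintype.mem_piFinset]

theorem card_blkp (z : V d) : (blkp z).card = 16 ^ d := by
  unfold blkp
  rw [Fintype.card_piFinset]
  simp only [Int.card_Ico]
  have : ∀ i, (10 * z i + 13 - (10 * z i - 3)).toNat = 16 := by
    intro i
    have : 10 * z i + 13 - (10 * z i - 3) = 16 := by ring
    rw [this]; rfl
  simp [this]

variable (ν : ℕ → Measure Bool) [∀ j, IsProbabilityMeasure (ν j)]

theorem badn_prob {κ N : ℕ} {S : ℤ} (hS : 1 ≤ S) {b : Om d → V d → Prop}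
    (hb : ∀ z, Dep (LocF κ N S z : Set (V d × ℕ)) {ω | b ω z}) {δ : ℝ} (hδ0 : 0 ≤ δ)
    (hδ : (256 : ℝ) ^ d * δ ≤ 1 / 2)
    (hp : ∀ z, (Pr d ν).real {ω | b ω z} ≤ δ) :
    ∀ n z, (Pr d ν).real {ω | badn (b ω) n z} ≤ δ / 2 ^ n := by
  classical
  intro n
  induction n with
  | zero => intro z; rw [pow_zero, div_one]; exact hp z
  | succ n ih =>
    intro z
    set A : Finset (V d × V d) := (blkp z ×ˢ blkp z).filter (fun p => ∃ i, p.1 i + 2 < p.2 i) with hA
    have hsub : {ω | badn (b ω) (n + 1) z} ⊆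
        ⋃ p ∈ A, ({ω | badn (b ω) n p.1} ∩ {ω | badn (b ω) n p.2}) := by
      rintro ω ⟨u, v, hu, hv, h1, h2, h3⟩
      refine Set.mem_biUnion (x := (u, v)) ?_ ⟨h1, h2⟩
      rw [Finset.mem_coe, hA, Finset.mem_filter, Finset.mem_product]
      exact ⟨⟨mem_blkp.2 hu, mem_blkp.2 hv⟩, h3⟩
    have hterm : ∀ p ∈ A, (Pr d ν).real ({ω | badn (b ω) n p.1} ∩ {ω | badn (b ω) n p.2}) ≤
        (δ / 2 ^ n) * (δ / 2 ^ n) := by
      intro p hpA
      obtain ⟨_, i, hi⟩ := Finset.mem_filter.1 hpA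
      have := (badn_dep hS hb n p.1).indep_real (fun t : V d × ℕ => ν t.2) (badn_dep hS hb n p.2)
        (LocF_disj (pos_pow hS n) hi)
      have e : (Pr d ν).real ({ω | badn (b ω) n p.1} ∩ {ω | badn (b ω) n p.2}) =
        (Pr d ν).real {ω | badn (b ω) n p.1} * (Pr d ν).real {ω | badn (b ω) n p.2} := this
      rw [e]
      exact mul_le_mul (ih _) (ih _) measureReal_nonneg (by positivity)
    have hcard : (A.card : ℝ) ≤ 256 ^ d := by
      have h1 : A.card ≤ (blkp z ×ˢ blkp z).card := Finset.card_filter_le _ _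
      rw [Finset.card_product, card_blkp, ← mul_pow] at h1
      norm_num at h1
      exact_mod_cast h1
    calc (Pr d ν).real {ω | badn (b ω) (n + 1) z}
        ≤ (Pr d ν).real (⋃ p ∈ A, ({ω | badn (b ω) n p.1} ∩ {ω | badn (b ω) n p.2})) :=
          measureReal_mono hsub (measure_ne_top _ _)
      _ ≤ ∑ p ∈ A, (Pr d ν).real ({ω | badn (b ω) n p.1} ∩ {ω | badn (b ω) n p.2}) :=
          measureReal_biUnion_finset_le _ _
      _ ≤ ∑ _p ∈ A, (δ / 2 ^ n) * (δ / 2 ^ n) := Finset.sum_le_sum hterm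
      _ = A.card * ((δ / 2 ^ n) * (δ / 2 ^ n)) := by rw [Finset.sum_const, nsmul_eq_mul]
      _ ≤ 256 ^ d * ((δ / 2 ^ n) * (δ / 2 ^ n)) :=
          mul_le_mul_of_nonneg_right hcard (by positivity)
      _ = (256 ^ d * δ) * (δ / 2 ^ n) / 2 ^ n := by ring
      _ ≤ (1 / 2) * (δ / 2 ^ n) / 1 := by
          apply div_le_div₀ (by positivity) _ (by norm_num) (one_le_pow₀ (by norm_num))
          exact mul_le_mul_of_nonneg_right hδ (by positivity)
      _ = δ / 2 ^ (n + 1) := by rw [pow_succ]; ring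

theorem rs_prob {κ N : ℕ} (hκ : κ + 2 ≤ d) {S : ℤ} (hS : 1 ≤ S) {b : Om d → V d → Prop}
    (hb : ∀ z, Dep (LocF (κ + 1) N S z : Set (V d × ℕ)) {ω | b ω z}) {τ : V d}
    (hJ : (Finset.univ.filter (fun j => τ j ≠ 0)).card = κ) (n : ℕ) (z : V d) :
    (Pr d ν).real {ω | ¬ badn (b ω) n z ∧ ¬ RS (b ω) (sd (κ + 1) S ω) τ n z {z}} ≤
      ((10 : ℝ) ^ d) ^ n * lam ν d (κ + 1) S ^ 2 ^ n := by
  classical
  set T2 : Finset (V d × ℕ) :=
    (Fintype.piFinset (fun i => Finset.Ico (S * 10 ^ n * (z i - 1)) (S * 10 ^ n * (z i + 2)))) ×ˢ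
      {κ + 1} with hT2
  have hsdsub : ∀ x, Loc n z x → ∀ y ∈ bxS S x, (y, κ + 1) ∈ T2 := by
    intro x hx y hy
    rw [hT2, Finset.mem_product, Fintype.mem_piFinset]
    refine ⟨fun i => ?_, Finset.mem_singleton_self _⟩
    have h1 := mem_bxS.1 hy i
    have h2 := hx i
    have e1 : S * 10 ^ n * (z i - 1) = S * (10 ^ n * (z i - 1)) := by ring
    have e2 : S * 10 ^ n * (z i + 2) = S * (10 ^ n * (z i + 2)) := by ring
    rw [Finset.mem_Ico, e1, e2]
    have a1 : S * (10 ^ n * (z i - 1)) ≤ S * (x i) :=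
      mul_le_mul_of_nonneg_left (by linarith [h2.1]) (by omega)
    have a2 : S * (x i + 1) ≤ S * (10 ^ n * (z i + 2)) :=
      mul_le_mul_of_nonneg_left (by linarith [h2.2]) (by omega)
    constructor <;> linarith [h1.1, h1.2]
  refine glue_le (fun t : V d × ℕ => ν t.2) (T1 := LocF (κ + 1) N (S * 10 ^ n) z) (T2 := T2)
    ?_ ?_ (fun t => t.2 = κ + 1) ?_ ?_ _ ?_
  · rw [Finset.disjoint_left]
    intro t h1 h2
    have a1 := (mem_LocF.1 h1).2.2
    have a2 := Finset.mem_singleton.1 (Finset.mem_product.1 h2).2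
    omega
  · intro ω ω' h h1
    have hbb : ∀ x, Loc n z x → (b ω x ↔ b ω' x) := fun x hx =>
      (hb x).iff fun t ht => h t (Or.inl (LocF_sub hS hx ht))
    have hss : ∀ x, Loc n z x → (sd (κ + 1) S ω x ↔ sd (κ + 1) S ω' x) := by
      intro x hx
      have e : ∀ y ∈ bxS S x, ω (y, κ + 1) = ω' (y, κ + 1) := fun y hy =>
        h _ (Or.inr (by exact_mod_cast hsdsub x hx y hy))
      constructor
      · intro h2 y hy; rw [← e y hy]; exact h2 y hy
      · intro h2 y hy; rw [e y hy]; exact h2 y hy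
    refine ⟨fun h2 => h1.1 ((badn_congr n z hbb).2 h2), fun h2 => h1.2 ?_⟩
    refine (RS_congr n z {z} ?_).2 h2
    rintro u rfl x hx
    exact ⟨hbb x hx, hss x hx⟩
  · intro t ht
    have a1 := (mem_LocF.1 ht).2.2
    omega
  · intro t ht
    exact Finset.mem_singleton.1 (Finset.mem_product.1 ht).2
  · intro ω1
    have hbe : ∀ ω2 : Om d, b (fun t => if t.2 = κ + 1 then ω2 t else ω1 t) = b ω1 := by
      intro ω2
      funext x
      apply propext
      apply (hb x).iff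
      intro t ht
      have a1 := (mem_LocF.1 ht).2.2
      have : t.2 ≠ κ + 1 := by omega
      simp [this]
    have hse : ∀ ω2 : Om d, sd (κ + 1) S (fun t => if t.2 = κ + 1 then ω2 t else ω1 t) =
        sd (κ + 1) S ω2 := by
      intro ω2
      funext x
      apply propext
      unfold sd
      simp
    have hset : {ω2 : Om d | (fun t => if t.2 = κ + 1 then ω2 t else ω1 t) ∈
        {ω | ¬ badn (b ω) n z ∧ ¬ RS (b ω) (sd (κ + 1) S ω) τ n z {z}}} =
        {ω2 | ¬ badn (b ω1) n z ∧ ¬ RS (b ω1) (sd (κ + 1) S ω2) τ n z {z}} := by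
      ext ω2
      show (¬ badn (b _) n z ∧ ¬ RS (b _) (sd (κ + 1) S _) τ n z {z}) ↔ _
      rw [hbe, hse]
      rfl
    rw [hset]
    by_cases hbad : badn (b ω1) n z
    · have : {ω2 : Om d | ¬ badn (b ω1) n z ∧ ¬ RS (b ω1) (sd (κ + 1) S ω2) τ n z {z}} = ∅ := by
        ext ω2
        simp [hbad]
      rw [this, measureReal_empty]
      exact mul_nonneg (by positivity) (pow_nonneg (lam_nonneg ν _ _) _)
    · have key := rs_bound ν hκ hJ (κ + 1) hS n z {z} {z} (b := b ω1) (by simp) (by simpa using hbad)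
        (by simp)
      rw [Finset.card_singleton, mul_one] at key
      refine le_trans (measureReal_mono ?_ (measure_ne_top _ _)) key
      rintro ω2 ⟨_, h⟩
      exact h

theorem decay {lam : ℝ} (h0 : 0 ≤ lam) (h1 : lam < 1) (d : ℕ) :
    Tendsto (fun n : ℕ => ((10 : ℝ) ^ d) ^ n * lam ^ 2 ^ n) atTop (𝓝 0) := by
  have key := tendsto_pow_const_mul_const_pow_of_abs_lt_one (4 * d) (r := lam)
    (by rw [abs_of_nonneg h0]; exact h1)
  have h2 : Tendsto (fun n : ℕ => 2 ^ n) atTop atTop :=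
    tendsto_pow_atTop_atTop_of_one_lt (by norm_num)
  have h3 := key.comp h2
  refine squeeze_zero (fun n => by positivity) (fun n => ?_) h3
  simp only [Function.comp]
  push_cast
  apply mul_le_mul_of_nonneg_right _ (by positivity)
  calc ((10 : ℝ) ^ d) ^ n = (10 ^ n) ^ d := by rw [← pow_mul, ← pow_mul, mul_comm]
    _ ≤ (16 ^ n) ^ d := by gcongr; norm_num
    _ = ((2 : ℝ) ^ n) ^ (4 * d) := by
        rw [show (16 : ℝ) = 2 ^ 4 by norm_num, ← pow_mul, ← pow_mul, ← pow_mul]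
        ring_nf

end Pool.Agent.W5h98.Pol
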