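import Pool.Agent.W5h98.Pol.Det

/-!
Deterministic part of the renormalisation: connected arrays of blocks and nucleation.
-/

set_option autoImplicit false

namespace Pool.Agent.W5h98.Pol
open Finset Relation

variable {d : ℕ}

/-- One step inside the set `A`. -/
def Stp (A : Set (V d)) (x y : V d) : Prop :=
  x ∈ A ∧ y ∈ A ∧ ∃ i s, (s = 1 ∨ s = (-1 : ℤ)) ∧ y = mv x i s

/-- Connected sets. -/
def Conn (A : Set (V d)) : Prop := ∀ x ∈ A, ∀ y ∈ A, ReflTransGen (Stp A) x y

theorem box_conn {A : Set (V d)} (lo up : V d) (hA : ∀ p : V d, (∀ i, lo i ≤ p i ∧ p i ≤ up i) → p ∈ A)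
    (x y : V d) (hx : ∀ i, lo i ≤ x i ∧ x i ≤ up i) (hy : ∀ i, lo i ≤ y i ∧ y i ≤ up i) :
    ReflTransGen (Stp A) x y := by
  induction hm : D x y using Nat.strong_induction_on generalizing x with
  | _ m IH =>
  by_cases hxy : x = y
  · subst hxy; exact ReflTransGen.refl
  · obtain ⟨i, hi⟩ : ∃ i, x i ≠ y i := by
      by_contra hcon
      push Not at hcon
      exact hxy (funext hcon)
    obtain ⟨s, hs, hlt, hbox⟩ : ∃ s : ℤ, (s = 1 ∨ s = -1) ∧
        (x i + s - y i).natAbs < (x i - y i).natAbs ∧ (lo i ≤ x i + s ∧ x i + s ≤ up i) := by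
      have h1 := hx i
      have h2 := hy i
      rcases lt_or_gt_of_ne hi with h | h
      · exact ⟨1, Or.inl rfl, by omega, by omega, by omega⟩
      · exact ⟨-1, Or.inr rfl, by omega, by omega, by omega⟩
    have hx' : ∀ k, lo k ≤ mv x i s k ∧ mv x i s k ≤ up k := by
      intro k
      by_cases hk : k = i
      · subst hk; rw [mv_same]; exact hbox
      · rw [mv_ne _ _ hk]; exact hx k
    refine ReflTransGen.head ⟨hA x hx, hA _ hx', i, s, hs, rfl⟩ (IH _ ?_ _ hx' rfl)
    rw [← hm]
    exact D_mv_lt hlt

/-- The sub-block `v` of `z` is not special: neither it nor a supporting neighbour is excluded. -/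
def NS (b : V d → Prop) (n : ℕ) (τ : V d) (z v : V d) : Prop :=
  ¬ InZ b n z v ∧ ∀ j, ¬ InZ b n z (mv v j (τ j))

/-- The array of non-special sub-blocks of the blocks in `U`, in the layer of `w`. -/
def Arr (b : V d → Prop) (n : ℕ) (τ : V d) (w : V d) (U : Set (V d)) : Set (V d) :=
  {v | (∀ j, τ j ≠ 0 → v j = w j) ∧ ∃ u ∈ U, InB u v ∧ NS b n τ u v}

/-- Every row of the array contains a seed. -/
def RS (b s : V d → Prop) (τ : V d) : ℕ → V d → Set (V d) → Prop
  | 0, _, U => ∃ x ∈ U, s x
  | n + 1, c, U => ∀ w, InB c w → RS b s τ n w (Arr b n τ w U)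

theorem NS_of_coord {b : V d → Prop} {n : ℕ} {τ z v : V d} {i : Fin d} (hi : τ i = 0)
    (h : ¬ ZC b n z i (v i)) : NS b n τ z v := by
  refine ⟨fun hc => h (hc i), fun j hc => h ?_⟩
  have := hc i
  by_cases hij : i = j
  · subst hij; rwa [hi, mv_zero] at this
  · rwa [mv_ne _ _ hij] at this

theorem base_conn {b : V d → Prop} {n : ℕ} {τ : V d} {w c : V d} {U : Set (V d)} {u : V d}
    (hu : u ∈ U) (hub : ¬ badn b (n + 1) u) (huc : ∀ j, τ j ≠ 0 → u j = c j) (hw : InB c w)
    {i1 i2 : Fin d} (hi : i1 ≠ i2) (h1 : τ i1 = 0) (h2 : τ i2 = 0)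
    {x : V d} (hx : x ∈ Arr b n τ w U) (hxu : InB u x) (f : V d) (hf : InB u f)
    (hfw : ∀ j, τ j ≠ 0 → f j = w j) (hfs : ∀ j, τ j = 0 → ¬ ZC b n u j (f j)) :
    ReflTransGen (Stp (Arr b n τ w U)) x f ∧ ReflTransGen (Stp (Arr b n τ w U)) f x := by
  obtain ⟨hxw, u', hu', hxu', hNS⟩ := hx
  have huu : u' = u := by
    funext i
    have a1 := hxu i
    have a2 := hxu' i
    omega
  subst huu
  -- membership from a box
  have hmem : ∀ p : V d, InB u' p → (∀ j, τ j ≠ 0 → p j = w j) → NS b n τ u' p →
      p ∈ Arr b n τ w U := fun p hp1 hp2 hp3 => ⟨hp2, u', hu', hp1, hp3⟩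
  by_cases hcase : ∃ i0, τ i0 = 0 ∧ ¬ ZC b n u' i0 (x i0)
  · obtain ⟨i0, hi0, hZ0⟩ := hcase
    obtain ⟨i3, hi3, hi03⟩ : ∃ i3, τ i3 = 0 ∧ i3 ≠ i0 := by
      by_cases h : i1 = i0
      · exact ⟨i2, h2, fun h' => hi (h.trans h'.symm)⟩
      · exact ⟨i1, h1, h⟩
    set x1 : V d := Function.update f i0 (x i0) with hx1
    -- first box
    have box1 : ∀ p : V d, (∀ i, (if τ i ≠ 0 then w i else if i = i0 then x i0 else 10 * u' i) ≤ p i ∧
        p i ≤ (if τ i ≠ 0 then w i else if i = i0 then x i0 else 10 * u' i + 9)) →
        p ∈ Arr b n τ w U := by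
      intro p hp
      have hp0 : p i0 = x i0 := by
        have := hp i0
        simp only [hi0, ne_eq, not_true_eq_false, if_false, if_true] at this
        omega
      apply hmem p
      · intro i
        have a1 := hp i
        have a2 := hxu i
        have a3 := hw i
        by_cases hτ : τ i = 0
        · by_cases h0 : i = i0
          · subst h0; rw [hp0]; exact a2
          · simp only [hτ, ne_eq, not_true_eq_false, if_false, h0] at a1
            constructor <;> omega
        · have := huc i hτ
          simp only [ne_eq, hτ, not_false_eq_true, if_true] at a1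
          constructor <;> omega
      · intro j hj
        have := hp j
        simp only [ne_eq, hj, not_false_eq_true, if_true] at this
        omega
      · apply NS_of_coord hi0
        rw [hp0]; exact hZ0
    have box2 : ∀ p : V d, (∀ i, (if τ i ≠ 0 then w i else if i = i3 then f i3 else 10 * u' i) ≤ p i ∧
        p i ≤ (if τ i ≠ 0 then w i else if i = i3 then f i3 else 10 * u' i + 9)) →
        p ∈ Arr b n τ w U := by
      intro p hp
      have hp0 : p i3 = f i3 := by
        have := hp i3
        simp only [hi3, ne_eq, not_true_eq_false, if_false, if_true] at this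
        omega
      apply hmem p
      · intro i
        have a1 := hp i
        have a2 := hf i
        have a3 := hw i
        by_cases hτ : τ i = 0
        · by_cases h0 : i = i3
          · subst h0; rw [hp0]; exact a2
          · simp only [hτ, ne_eq, not_true_eq_false, if_false, h0] at a1
            constructor <;> omega
        · have := huc i hτ
          simp only [ne_eq, hτ, not_false_eq_true, if_true] at a1
          constructor <;> omega
      · intro j hj
        have := hp j
        simp only [ne_eq, hj, not_false_eq_true, if_true] at this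
        omega
      · apply NS_of_coord hi3
        rw [hp0]; exact hfs i3 hi3
    have m1x : ∀ i, (if τ i ≠ 0 then w i else if i = i0 then x i0 else 10 * u' i) ≤ x i ∧
        x i ≤ (if τ i ≠ 0 then w i else if i = i0 then x i0 else 10 * u' i + 9) := by
      intro i
      have a2 := hxu i
      by_cases hτ : τ i = 0
      · by_cases h0 : i = i0
        · subst h0; simp [hτ]
        · simp only [hτ, ne_eq, not_true_eq_false, if_false, h0]
          constructor <;> omega
      · simp [hτ, hxw i hτ]
    have m1y : ∀ i, (if τ i ≠ 0 then w i else if i = i0 then x i0 else 10 * u' i) ≤ x1 i ∧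
        x1 i ≤ (if τ i ≠ 0 then w i else if i = i0 then x i0 else 10 * u' i + 9) := by
      intro i
      have a2 := hf i
      by_cases hτ : τ i = 0
      · by_cases h0 : i = i0
        · subst h0; simp [hτ, hx1]
        · simp only [hτ, ne_eq, not_true_eq_false, if_false, h0, hx1, Function.update_of_ne h0]
          constructor <;> omega
      · have h0 : i ≠ i0 := fun h => hτ (h ▸ hi0)
        simp [hτ, hfw i hτ, hx1, Function.update_of_ne h0]
    have m2x : ∀ i, (if τ i ≠ 0 then w i else if i = i3 then f i3 else 10 * u' i) ≤ x1 i ∧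
        x1 i ≤ (if τ i ≠ 0 then w i else if i = i3 then f i3 else 10 * u' i + 9) := by
      intro i
      have a1 := hxu i
      have a2 := hf i
      by_cases hτ : τ i = 0
      · by_cases h3 : i = i3
        · subst h3; simp [hτ, hx1, Function.update_of_ne hi03]
        · by_cases h0 : i = i0
          · subst h0
            simp only [hτ, ne_eq, not_true_eq_false, if_false, h3, hx1, Function.update_self]
            constructor <;> omega
          · simp only [hτ, ne_eq, not_true_eq_false, if_false, h3, hx1, Function.update_of_ne h0]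
            constructor <;> omega
      · have h0 : i ≠ i0 := fun h => hτ (h ▸ hi0)
        simp [hτ, hfw i hτ, hx1, Function.update_of_ne h0]
    have m2y : ∀ i, (if τ i ≠ 0 then w i else if i = i3 then f i3 else 10 * u' i) ≤ f i ∧
        f i ≤ (if τ i ≠ 0 then w i else if i = i3 then f i3 else 10 * u' i + 9) := by
      intro i
      have a2 := hf i
      by_cases hτ : τ i = 0
      · by_cases h3 : i = i3
        · subst h3; simp [hτ]
        · simp only [hτ, ne_eq, not_true_eq_false, if_false, h3]
          constructor <;> omega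
      · simp [hτ, hfw i hτ]
    exact ⟨(box_conn _ _ box1 x x1 m1x m1y).trans (box_conn _ _ box2 x1 f m2x m2y),
      (box_conn _ _ box2 f x1 m2y m2x).trans (box_conn _ _ box1 x1 x m1y m1x)⟩
  · push Not at hcase
    have box3 : ∀ p : V d, (∀ i, (if τ i ≠ 0 then w i else 10 * u' i) ≤ p i ∧
        p i ≤ (if τ i ≠ 0 then w i else 10 * u' i + 9)) → p ∈ Arr b n τ w U := by
      intro p hp
      have hpw : ∀ j, τ j ≠ 0 → p j = w j := by
        intro j hj
        have := hp j
        simp only [ne_eq, hj, not_false_eq_true, if_true] at this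
        omega
      apply hmem p
      · intro i
        have a1 := hp i
        have a3 := hw i
        by_cases hτ : τ i = 0
        · simp only [hτ, ne_eq, not_true_eq_false, if_false] at a1
          constructor <;> omega
        · have := huc i hτ
          simp only [ne_eq, hτ, not_false_eq_true, if_true] at a1
          constructor <;> omega
      · exact hpw
      · refine ⟨fun hc => hNS.1 ?_, fun j hc => ?_⟩
        · intro i
          by_cases hτ : τ i = 0
          · exact hcase i hτ
          · rw [hxw i hτ, ← hpw i hτ]; exact hc i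
        · by_cases hτj : τ j = 0
          · rw [hτj, mv_zero] at hc
            apply hNS.1
            intro i
            by_cases hτ : τ i = 0
            · exact hcase i hτ
            · rw [hxw i hτ, ← hpw i hτ]; exact hc i
          · apply hNS.2 j
            intro i
            by_cases hij : i = j
            · subst hij
              rw [mv_same, hxw i hτj, ← hpw i hτj, ← mv_same]; exact hc i
            · rw [mv_ne _ _ hij]
              by_cases hτ : τ i = 0
              · exact hcase i hτ
              · rw [hxw i hτ, ← hpw i hτ]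
                have := hc i
                rwa [mv_ne _ _ hij] at this
    have m1 : ∀ i, (if τ i ≠ 0 then w i else 10 * u' i) ≤ x i ∧
        x i ≤ (if τ i ≠ 0 then w i else 10 * u' i + 9) := by
      intro i
      have a2 := hxu i
      by_cases hτ : τ i = 0
      · simp only [hτ, ne_eq, not_true_eq_false, if_false]
        constructor <;> omega
      · simp [hτ, hxw i hτ]
    have m2 : ∀ i, (if τ i ≠ 0 then w i else 10 * u' i) ≤ f i ∧
        f i ≤ (if τ i ≠ 0 then w i else 10 * u' i + 9) := by
      intro i
      have a2 := hf i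
      by_cases hτ : τ i = 0
      · simp only [hτ, ne_eq, not_true_eq_false, if_false]
        constructor <;> omega
      · simp [hτ, hfw i hτ]
    exact ⟨box_conn _ _ box3 x f m1 m2, box_conn _ _ box3 f x m2 m1⟩

/-- A safe value in direction `i` for two neighbouring blocks at once. -/
theorem safe_two {b : V d → Prop} {n : ℕ} {z z' : V d} (hz : ¬ badn b (n + 1) z)
    (hz' : ¬ badn b (n + 1) z') (i : Fin d) :
    ∃ g, 10 * z i ≤ g ∧ g < 10 * z i + 10 ∧ ¬ ZC b n z i g ∧ ¬ ZC b n z' i g := by
  by_contra hcon
  push Not at hcon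
  have key : ∀ t, 10 * z i ≤ t → t < 10 * z i + 10 → ZC b n z i t ∨ ZC b n z' i t := by
    intro t h1 h2
    by_cases h : ZC b n z i t
    · exact Or.inl h
    · exact Or.inr (hcon t h1 h2 h)
  have d1 : ∀ t t', ZC b n z i t → ZC b n z i t' → t' ≤ t + 2 := fun _ _ h h' => ZC_diam hz h h'
  have d2 : ∀ t t', ZC b n z' i t → ZC b n z' i t' → t' ≤ t + 2 := fun _ _ h h' => ZC_diam hz' h h'
  rcases key (10 * z i) (by omega) (by omega) with h1 | h1 <;>
  rcases key (10 * z i + 4) (by omega) (by omega) with h2 | h2 <;>
  rcases key (10 * z i + 8) (by omega) (by omega) with h3 | h3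
  · have := d1 _ _ h1 h2; omega
  · have := d1 _ _ h1 h2; omega
  · have := d1 _ _ h1 h3; omega
  · have := d2 _ _ h2 h3; omega
  · have := d1 _ _ h2 h3; omega
  · have := d2 _ _ h1 h3; omega
  · have := d2 _ _ h1 h2; omega
  · have := d2 _ _ h1 h2; omega

theorem arr_conn {b : V d → Prop} {n : ℕ} {τ : V d} {w c : V d} {U : Set (V d)}
    (hU : Conn U) (hub : ∀ u ∈ U, ¬ badn b (n + 1) u) (huc : ∀ u ∈ U, ∀ j, τ j ≠ 0 → u j = c j)
    (hw : InB c w) {i1 i2 : Fin d} (hi : i1 ≠ i2) (h1 : τ i1 = 0) (h2 : τ i2 = 0) :
    Conn (Arr b n τ w U) := by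
  -- inside one block
  have base : ∀ u ∈ U, ∀ x ∈ Arr b n τ w U, InB u x → ∀ y ∈ Arr b n τ w U, InB u y →
      ReflTransGen (Stp (Arr b n τ w U)) x y := by
    intro u hu x hx hxu y hy hyu
    have hsafe : ∀ i, ∃ f, 10 * u i ≤ f ∧ f < 10 * u i + 10 ∧ ¬ ZC b n u i f :=
      fun i => safe (hub u hu) i
    choose g hg1 hg2 hg3 using hsafe
    set f : V d := fun i => if τ i = 0 then g i else w i with hf
    have hfB : InB u f := by
      intro i
      by_cases hτ : τ i = 0
      · simp only [hf, hτ, if_true]; exact ⟨hg1 i, hg2 i⟩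
      · simp only [hf, hτ, if_false]
        have := hw i
        rw [huc u hu i hτ]; exact this
    have hfw : ∀ j, τ j ≠ 0 → f j = w j := by
      intro j hj; simp [hf, hj]
    have hfs : ∀ j, τ j = 0 → ¬ ZC b n u j (f j) := by
      intro j hj
      simp only [hf, hj, if_true]; exact hg3 j
    exact (base_conn hu (hub u hu) (huc u hu) hw hi h1 h2 hx hxu f hfB hfw hfs).1.trans
      (base_conn hu (hub u hu) (huc u hu) hw hi h1 h2 hy hyu f hfB hfw hfs).2
  have step : ∀ u u', Stp U u u' → ∃ x ∈ Arr b n τ w U, ∃ x' ∈ Arr b n τ w U, InB u x ∧ InB u' x' ∧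
      Stp (Arr b n τ w U) x x' := by
    rintro u u' ⟨hu, hu', i, s, hs, rfl⟩
    have hτi : τ i = 0 := by
      by_contra hcon
      have a1 := huc u hu i hcon
      have a2 := huc _ hu' i hcon
      rw [mv_same] at a2
      rcases hs with rfl | rfl <;> omega
    obtain ⟨i3, hi3, hi03⟩ : ∃ i3, τ i3 = 0 ∧ i3 ≠ i := by
      by_cases h : i1 = i
      · exact ⟨i2, h2, fun h' => hi (h.trans h'.symm)⟩
      · exact ⟨i1, h1, h⟩
    obtain ⟨g, hg1, hg2, hg3, hg4⟩ := safe_two (hub u hu) (hub _ hu') i3
    set x : V d := fun j => if τ j ≠ 0 then w j else if j = i then (if s = 1 then 10 * u i + 9 else 10 * u i)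
      else if j = i3 then g else 10 * u j with hx
    have x3 : x i3 = g := by simp [hx, hi3, hi03]
    have x3' : mv x i s i3 = g := by rw [mv_ne _ _ hi03, x3]
    have hxi : x i = if s = 1 then 10 * u i + 9 else 10 * u i := by simp [hx, hτi]
    have B1 : InB u x := by
      intro j
      by_cases hj : τ j = 0
      · by_cases hji : j = i
        · subst hji
          rw [hxi]
          split_ifs <;> constructor <;> omega
        · by_cases hj3 : j = i3
          · subst hj3; rw [x3]; exact ⟨hg1, hg2⟩
          · simp only [hx, hj, hji, hj3, ne_eq, not_true_eq_false, if_false]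
            constructor <;> omega
      · simp only [hx, ne_eq, hj, not_false_eq_true, if_true]
        have := hw j
        rw [huc u hu j hj]; exact this
    have B2 : InB (mv u i s) (mv x i s) := by
      intro j
      by_cases hji : j = i
      · subst hji
        rw [mv_same, mv_same, hxi]
        rcases hs with rfl | rfl
        · simp only [if_true]; constructor <;> omega
        · simp only [show ((-1 : ℤ) = 1) = False from by simp, if_false]
          constructor <;> omega
      · rw [mv_ne _ _ hji, mv_ne _ _ hji]; exact B1 j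
    have W1 : ∀ j, τ j ≠ 0 → x j = w j := by
      intro j hj; simp [hx, hj]
    have W2 : ∀ j, τ j ≠ 0 → mv x i s j = w j := by
      intro j hj
      have hji : j ≠ i := fun h => hj (h ▸ hτi)
      rw [mv_ne _ _ hji]; exact W1 j hj
    have M1 : x ∈ Arr b n τ w U := ⟨W1, u, hu, B1, NS_of_coord hi3 (by rw [x3]; exact hg3)⟩
    have M2 : mv x i s ∈ Arr b n τ w U :=
      ⟨W2, _, hu', B2, NS_of_coord hi3 (by rw [x3']; exact hg4)⟩
    exact ⟨x, M1, mv x i s, M2, B1, B2, M1, M2, i, s, hs, rfl⟩
  have main : ∀ u u', u ∈ U → u' ∈ U → ReflTransGen (Stp U) u u' → ∀ x ∈ Arr b n τ w U, InB u x →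
      ∀ y ∈ Arr b n τ w U, InB u' y → ReflTransGen (Stp (Arr b n τ w U)) x y := by
    intro u u' hu hu' hr
    induction hr with
    | refl => exact base u hu
    | tail hab hbc ih =>
      intro x hx hxu y hy hyu
      obtain ⟨v, hv, v', hv', hvb, hvc, hst⟩ := step _ _ hbc
      exact ((ih hbc.1 x hx hxu v hv hvb).tail hst).trans (base _ hu' v' hv' hvc y hy hyu)
  intro x hx y hy
  obtain ⟨_, u, hu, hxu, _⟩ := id hx
  obtain ⟨_, u', hu', hyu, _⟩ := id hy
  exact main u u' hu hu' (hU u hu u' hu') x hx hxu y hy hyu

/-- Nucleation: a connected array of good blocks, supported in the directions where `τ ≠ 0`, with a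
seed in every row, is filled. -/
theorem nuc {k : ℕ} (hk : k + 2 ≤ d) {b F s : V d → Prop} (hR : Rule (k + 1) b F)
    (hsd : ∀ x, ¬ b x → s x → F x) {τ : V d} (hτ : ∀ j, τ j = 0 ∨ τ j = 1 ∨ τ j = -1)
    (hJ : (Finset.univ.filter (fun j => τ j ≠ 0)).card = k) :
    ∀ (n : ℕ) (c : V d) (U : Set (V d)), (∀ u ∈ U, ∀ j, τ j ≠ 0 → u j = c j) → Conn U →
      (∀ u ∈ U, ¬ badn b n u) → (∀ u ∈ U, ∀ j, τ j ≠ 0 → fil b F n (mv u j (τ j))) →
      RS b s τ n c U → ∀ u ∈ U, fil b F n u := by
  obtain ⟨i1, i2, hi, h1, h2⟩ : ∃ i1 i2 : Fin d, i1 ≠ i2 ∧ τ i1 = 0 ∧ τ i2 = 0 := by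
    have hcard : 1 < (Finset.univ.filter (fun j => τ j = 0)).card := by
      have := Finset.card_filter_add_card_filter_not (s := (Finset.univ : Finset (Fin d)))
        (fun j => τ j = 0)
      rw [Finset.card_univ, Fintype.card_fin] at this
      have e : (Finset.univ.filter (fun j => ¬ τ j = 0)).card = k := hJ
      omega
    obtain ⟨i1, hm1, i2, hm2, hne⟩ := Finset.one_lt_card.1 hcard
    exact ⟨i1, i2, hne, (Finset.mem_filter.1 hm1).2, (Finset.mem_filter.1 hm2).2⟩
  have hτs : ∀ j, τ j ≠ 0 → (τ j = 1 ∨ τ j = -1) := fun j hj => (hτ j).resolve_left hj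
  intro n
  induction n with
  | zero =>
    rintro c U hUc hconn hub hsup ⟨x, hx, hsx⟩ u hu
    have hr := hconn x hx u hu
    have hFx : F x := hsd x (hub x hx) hsx
    clear hsx
    induction hr with
    | refl => exact hFx
    | @tail y y' hab hbc ih =>
      obtain ⟨hy, hy', i, t, ht, rfl⟩ := hbc
      have hFy : F y := ih hy
      have hτi : τ i = 0 := by
        by_contra hcon
        have a1 := hUc y hy i hcon
        have a2 := hUc _ hy' i hcon
        rw [mv_same] at a2
        rcases ht with rfl | rfl <;> omega
      apply hR _ (hub _ hu)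
      refine ⟨insert i (Finset.univ.filter (fun j => τ j ≠ 0)), ?_, ?_⟩
      · rw [Finset.card_insert_of_notMem (by simp [hτi]), hJ]
      · intro j hj
        rcases Finset.mem_insert.1 hj with rfl | hj
        · have e : mv (mv y j t) j (-t) = y := by
            funext l
            by_cases hl : l = j
            · subst hl; rw [mv_same, mv_same]; ring
            · rw [mv_ne _ _ hl, mv_ne _ _ hl]
          rcases ht with rfl | rfl
          · right; rw [e]; exact hFy
          · left
            rw [neg_neg] at e
            rw [e]; exact hFy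
        · have hj' := (Finset.mem_filter.1 hj).2
          exact sup_of (hτs j hj') (hsup _ hu j hj')
  | succ n ih =>
    intro c U hUc hconn hub hsup hRS
    have key : ∀ m, ∀ w, InB c w → D w (tgt c τ) = m → ∀ u ∈ U, ∀ v, InB u v →
        (∀ j, τ j ≠ 0 → v j = w j) → ¬ InZ b n u v → fil b F n v := by
      intro m
      induction m using Nat.strong_induction_on with
      | _ m IH =>
      intro w hw hm
      -- supports
      have hpred : ∀ u ∈ U, ∀ v, InB u v → (∀ j, τ j ≠ 0 → v j = w j) → ∀ j, τ j ≠ 0 →
          ¬ InZ b n u (mv v j (τ j)) → fil b F n (mv v j (τ j)) := by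
        intro u hu v hv hvw j hj hout
        by_cases hin : InB u (mv v j (τ j))
        · have hwj : InB c (mv w j (τ j)) := by
            intro i
            by_cases hij : i = j
            · subst hij
              have a1 := hin i
              rw [mv_same, hvw i hj, hUc u hu i hj] at a1
              rw [mv_same]; exact a1
            · rw [mv_ne _ _ hij]; exact hw i
          refine IH (D (mv w j (τ j)) (tgt c τ)) ?_ _ hwj rfl u hu _ hin ?_ hout
          · rw [← hm]
            apply D_mv_lt
            have a1 := hwj j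
            have a2 := hw j
            rw [mv_same] at a1
            unfold tgt
            rcases hτs j hj with hs | hs <;> simp only [hs] at a1 ⊢ <;> norm_num <;> omega
          · intro l hl
            by_cases hlj : l = j
            · subst hlj; rw [mv_same, mv_same, hvw l hl]
            · rw [mv_ne _ _ hlj, mv_ne _ _ hlj]; exact hvw l hl
        · exact pred_fill (hτs j hj) (hsup u hu j hj) hv hout hin
      have harr : ∀ v ∈ Arr b n τ w U, fil b F n v := by
        apply ih w (Arr b n τ w U) (fun v hv j hj => hv.1 j hj)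
          (arr_conn hconn hub hUc hw hi h1 h2)
        · rintro v ⟨_, u, hu, hv, hNS⟩ hb
          exact hNS.1 (InZ_of_bad hv.p hb)
        · rintro v ⟨hvw, u, hu, hv, hNS⟩ j hj
          exact hpred u hu v hv hvw j hj (hNS.2 j)
        · exact hRS w hw
      intro u hu v hv hvw hvZ
      have hsafe : ∀ i, ∃ f, 10 * u i ≤ f ∧ f < 10 * u i + 10 ∧ ¬ ZC b n u i f :=
        fun i => safe (hub u hu) i
      choose f hf1 hf2 hf3 using hsafe
      induction hm2 : D v f using Nat.strong_induction_on generalizing v with
      | _ m2 IH2 =>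
      by_cases hNS : NS b n τ u v
      · exact harr v ⟨hvw, u, hu, hv, hNS⟩
      · obtain ⟨j0, hZ⟩ : ∃ j0, InZ b n u (mv v j0 (τ j0)) := by
          by_contra hcon
          push Not at hcon
          exact hNS ⟨hvZ, hcon⟩
        have hZC : ∀ i, i ≠ j0 → ZC b n u i (v i) := by
          intro i hi
          have := hZ i
          rwa [mv_ne _ _ hi] at this
        have hj0n : ¬ ZC b n u j0 (v j0) := by
          intro hc
          apply hvZ
          intro i
          by_cases hi : i = j0
          · subst hi; exact hc
          · exact hZC i hi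
        have hvb : ¬ badn b n v := fun hb => hvZ (InZ_of_bad hv.p hb)
        apply transport (show k + 1 < d by omega) hR n v hvb
        refine ⟨Finset.univ.erase j0, ?_, ?_⟩
        · rw [Finset.card_erase_of_mem (Finset.mem_univ _), Finset.card_univ, Fintype.card_fin]
          omega
        · intro i hi'
          have hij : i ≠ j0 := (Finset.mem_erase.1 hi').1
          by_cases hτi : τ i = 0
          · have hne : v i ≠ f i := fun h => hf3 i (h ▸ hZC i hij)
            obtain ⟨t, ht, hin, hlt⟩ := move_in hv (hf1 i) (hf2 i) hne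
            apply sup_of ht
            refine IH2 _ ?_ _ hin ?_ ?_ rfl
            · rw [← hm2]; exact D_mv_lt hlt
            · intro j hj
              have hji : j ≠ i := fun h => hj (h ▸ hτi)
              rw [mv_ne _ _ hji]; exact hvw j hj
            · intro hc
              apply hj0n
              have := hc j0
              rwa [mv_ne _ _ hij.symm] at this
          · apply sup_of (hτs i hτi)
            apply hpred u hu v hv hvw i hτi
            intro hc
            apply hj0n
            have := hc j0
            rwa [mv_ne _ _ hij.symm] at this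
    intro u hu
    refine ⟨hub u hu, ?_⟩
    intro v hv hvZ
    set w : V d := fun j => if τ j = 0 then 10 * c j else v j with hwdef
    have hw : InB c w := by
      intro j
      by_cases hj : τ j = 0
      · simp only [hwdef, hj, if_true]; constructor <;> omega
      · simp only [hwdef, hj, if_false]
        rw [← hUc u hu j hj]; exact hv j
    exact key _ w hw rfl u hu v hv (fun j hj => by simp [hwdef, hj]) hvZ

end Pool.Agent.W5h98.Pol
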