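import Pool.Agent.W5h98.Pol.Prob

/-!
Seeds: probability that some row of a good block has no seed.
-/

set_option autoImplicit false

namespace Pool.Agent.W5h98.Pol
open MeasureTheory ProbabilityTheory Finset

variable {d : ℕ}

/-- The configurations. -/
abbrev Om (d : ℕ) := V d × ℕ → Bool

/-- The product law: coordinate `(x, j)` has law `ν j`. -/
noncomputable def Pr (d : ℕ) (ν : ℕ → Measure Bool) [∀ j, IsProbabilityMeasure (ν j)] :
    Measure (Om d) := Measure.infinitePi (fun t : V d × ℕ => ν t.2)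

instance (ν : ℕ → Measure Bool) [∀ j, IsProbabilityMeasure (ν j)] :
    IsProbabilityMeasure (Pr d ν) := by unfold Pr; infer_instance

/-- The sites of the cell `x` at scale `S`. -/
noncomputable def bxS (S : ℤ) (x : V d) : Finset (V d) :=
  Fintype.piFinset (fun i => Finset.Ico (S * x i) (S * x i + S))

theorem mem_bxS {S : ℤ} {x y : V d} : y ∈ bxS S x ↔ ∀ i, S * x i ≤ y i ∧ y i < S * x i + S := by
  simp [bxS, Fintype.mem_piFinset]

theorem card_bxS (S : ℤ) (x : V d) : (bxS S x).card = S.toNat ^ d := by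
  unfold bxS
  rw [Fintype.card_piFinset]
  simp

theorem bxS_inj {S : ℤ} (hS : 1 ≤ S) {x x' y : V d} (h : y ∈ bxS S x) (h' : y ∈ bxS S x') :
    x = x' := by
  rw [mem_bxS] at h h'
  funext i
  have a1 := h i
  have a2 := h' i
  have b1 : S * x i < S * (x' i + 1) := by rw [mul_add]; linarith
  have b2 : S * x' i < S * (x i + 1) := by rw [mul_add]; linarith
  have c1 := lt_of_mul_lt_mul_left b1 (by omega)
  have c2 := lt_of_mul_lt_mul_left b2 (by omega)
  omega

/-- The cell `x` is a seed of type `j`. -/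
def sd (j : ℕ) (S : ℤ) (ω : Om d) (x : V d) : Prop := ∀ y ∈ bxS S x, ω (y, j) = true

theorem sd_dep (j : ℕ) (S : ℤ) (x : V d) :
    Dep ((bxS S x ×ˢ {j} : Finset (V d × ℕ)) : Set (V d × ℕ)) {ω | sd j S ω x} := by
  intro ω ω' h h1 y hy
  rw [← h (y, j) (by simp [hy])]
  exact h1 y hy

variable (ν : ℕ → Measure Bool) [∀ j, IsProbabilityMeasure (ν j)]

theorem sd_prob (j : ℕ) (S : ℤ) (x : V d) :
    (Pr d ν).real {ω | sd j S ω x} = ((ν j).real {true}) ^ (S.toNat ^ d) := by
  have e : {ω : Om d | sd j S ω x} =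
      Set.pi ((bxS S x ×ˢ {j} : Finset (V d × ℕ)) : Set (V d × ℕ)) (fun _ => {true}) := by
    ext ω
    constructor
    · intro h t ht
      have ht' : t ∈ bxS S x ×ˢ ({j} : Finset ℕ) := by exact_mod_cast ht
      obtain ⟨h1, h2⟩ := Finset.mem_product.1 ht'
      have h3 : t.2 = j := Finset.mem_singleton.1 h2
      have := h t.1 h1
      rw [← h3] at this
      exact this
    · intro h y hy
      exact h (y, j) (by simp [hy])
  rw [measureReal_def, e, Pr, Measure.infinitePi_pi _ (fun _ _ => measurableSet_singleton _),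
    ENNReal.toReal_prod]
  rw [Finset.prod_congr rfl (g := fun _ => (ν j).real {true})]
  · rw [Finset.prod_const, Finset.card_product, card_bxS]
    simp
  · intro t ht
    have h2 := (Finset.mem_product.1 ht).2
    rw [Finset.mem_singleton.1 h2]
    rfl

/-- Probability that a cell is not a seed. -/
noncomputable def lam (d : ℕ) (j : ℕ) (S : ℤ) : ℝ := 1 - ((ν j).real {true}) ^ (S.toNat ^ d)

theorem lam_nonneg (j : ℕ) (S : ℤ) : 0 ≤ lam ν d j S := by
  unfold lam
  have : ((ν j).real {true}) ^ (S.toNat ^ d) ≤ 1 := pow_le_one₀ measureReal_nonneg measureReal_le_one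
  linarith

theorem lam_lt_one {j : ℕ} (S : ℤ) (h : 0 < (ν j).real {true}) : lam ν d j S < 1 := by
  unfold lam
  have : 0 < ((ν j).real {true}) ^ (S.toNat ^ d) := pow_pos h _
  linarith

theorem nosd_dep (j : ℕ) (S : ℤ) (T : Finset (V d)) :
    Dep ((T.biUnion (bxS S) ×ˢ {j} : Finset (V d × ℕ)) : Set (V d × ℕ))
      {ω | ∀ x ∈ T, ¬ sd j S ω x} := by
  intro ω ω' h h1 x hx h2
  apply h1 x hx
  intro y hy
  rw [h (y, j) (by
    rw [Finset.mem_coe, Finset.mem_product]
    exact ⟨Finset.mem_biUnion.2 ⟨x, hx, hy⟩, Finset.mem_singleton_self j⟩)]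
  exact h2 y hy

theorem nosd_prob (j : ℕ) {S : ℤ} (hS : 1 ≤ S) (T : Finset (V d)) :
    (Pr d ν).real {ω | ∀ x ∈ T, ¬ sd j S ω x} = lam ν d j S ^ T.card := by
  classical
  induction T using Finset.induction_on with
  | empty => simp
  | insert x T hx ih =>
    have e : {ω : Om d | ∀ x' ∈ insert x T, ¬ sd j S ω x'} =
        {ω | sd j S ω x}ᶜ ∩ {ω | ∀ x' ∈ T, ¬ sd j S ω x'} := by
      ext ω
      simp only [Finset.mem_insert, forall_eq_or_imp, Set.mem_ofPred_eq, Set.mem_inter_iff,
        Set.mem_compl_iff]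
    rw [e]
    have hd : Disjoint (bxS S x ×ˢ {j} : Finset (V d × ℕ)) (T.biUnion (bxS S) ×ˢ {j}) := by
      rw [Finset.disjoint_left]
      intro t h1 h2
      obtain ⟨x', hx', h3⟩ := Finset.mem_biUnion.1 (Finset.mem_product.1 h2).1
      have := bxS_inj hS (Finset.mem_product.1 h1).1 h3
      exact hx (this ▸ hx')
    have hind := (sd_dep j S x).compl.indep_real (fun t : V d × ℕ => ν t.2) (nosd_dep j S T) hd
    have hind' : (Pr d ν).real ({ω | sd j S ω x}ᶜ ∩ {ω | ∀ x' ∈ T, ¬ sd j S ω x'}) =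
      (Pr d ν).real {ω | sd j S ω x}ᶜ * (Pr d ν).real {ω | ∀ x' ∈ T, ¬ sd j S ω x'} := hind
    rw [hind', ih, Finset.card_insert_of_notMem hx, pow_succ', probReal_compl_eq_one_sub,
      sd_prob]
    · rfl
    · exact (sd_dep j S x).meas

/-- The sub-blocks of a block. -/
noncomputable def blk (c : V d) : Finset (V d) := bxS 10 c

theorem mem_blk {c w : V d} : w ∈ blk c ↔ InB c w := by
  unfold blk
  rw [mem_bxS]
  rfl

theorem card_blk (c : V d) : (blk c).card = 10 ^ d := by
  unfold blk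
  rw [card_bxS]
  rfl

theorem two_idx {τ : V d} {k : ℕ} (hk : k + 2 ≤ d)
    (hJ : (Finset.univ.filter (fun j => τ j ≠ 0)).card = k) :
    ∃ i1 i2 : Fin d, i1 ≠ i2 ∧ τ i1 = 0 ∧ τ i2 = 0 := by
  have hcard : 1 < (Finset.univ.filter (fun j => τ j = 0)).card := by
    have := Finset.card_filter_add_card_filter_not (s := (Finset.univ : Finset (Fin d)))
      (fun j => τ j = 0)
    rw [Finset.card_univ, Fintype.card_fin] at this
    have e : (Finset.univ.filter (fun j => ¬ τ j = 0)).card = k := hJ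
    omega
  obtain ⟨i1, hm1, i2, hm2, hne⟩ := Finset.one_lt_card.1 hcard
  exact ⟨i1, i2, hne, (Finset.mem_filter.1 hm1).2, (Finset.mem_filter.1 hm2).2⟩

/-- For a frozen bad field: probability that some row has no seed. -/
theorem rs_bound {b : V d → Prop} {τ : V d} {k : ℕ} (hk : k + 2 ≤ d)
    (hJ : (Finset.univ.filter (fun j => τ j ≠ 0)).card = k) (j : ℕ) {S : ℤ} (hS : 1 ≤ S) :
    ∀ (n : ℕ) (c : V d) (U : Set (V d)) (T : Finset (V d)), (∀ u ∈ T, u ∈ U) →
      (∀ u ∈ T, ¬ badn b n u) → (∀ u ∈ T, ∀ j, τ j ≠ 0 → u j = c j) →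
      (Pr d ν).real {ω | ¬ RS b (sd j S ω) τ n c U} ≤
        ((10 : ℝ) ^ d) ^ n * lam ν d j S ^ (2 ^ n * T.card) := by
  classical
  obtain ⟨i1, i2, hi, h1, h2⟩ := two_idx hk hJ
  intro n
  induction n with
  | zero =>
    intro c U T hT _ _
    simp only [pow_zero, one_mul]
    rw [← nosd_prob ν j hS T]
    apply measureReal_mono _ (measure_ne_top _ _)
    intro ω hω x hx hs
    exact hω ⟨x, hT x hx, hs⟩
  | succ n ih =>
    intro c U T hT hTb hTc
    have hw : ∀ w ∈ blk c, (Pr d ν).real {ω | ¬ RS b (sd j S ω) τ n w (Arr b n τ w U)} ≤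
        ((10 : ℝ) ^ d) ^ n * lam ν d j S ^ (2 ^ (n + 1) * T.card) := by
      intro w hw
      have hw' := mem_blk.1 hw
      have h3 : ∀ u, ∃ x y : V d, u ∈ T → (x ≠ y ∧ (∀ j, τ j ≠ 0 → x j = w j) ∧
          (∀ j, τ j ≠ 0 → y j = w j) ∧
          InB u x ∧ InB u y ∧ NS b n τ u x ∧ NS b n τ u y) := by
        intro u
        by_cases hu : u ∈ T
        · obtain ⟨x, y, h⟩ := two_ns (hTb u hu) (hTc u hu) hw' hi h1 h2
          exact ⟨x, y, fun _ => h⟩
        · exact ⟨u, u, fun h => absurd h hu⟩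
      choose X Y hXY using h3
      set g : V d × Bool → V d := fun p => if p.2 then X p.1 else Y p.1 with hg
      set T' : Finset (V d) := (T ×ˢ (Finset.univ : Finset Bool)).image g with hT'
      have hgB : ∀ p ∈ T ×ˢ (Finset.univ : Finset Bool), InB p.1 (g p) := by
        rintro ⟨u, β⟩ hp
        have hu := (Finset.mem_product.1 hp).1
        have := hXY u hu
        cases β
        · exact this.2.2.2.2.1
        · exact this.2.2.2.1
      have hinj : Set.InjOn g ((T ×ˢ (Finset.univ : Finset Bool) : Finset _) : Set (V d × Bool)) := by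
        rintro ⟨u, β⟩ hp ⟨u', β'⟩ hp' he
        have hp1 : (u, β) ∈ T ×ˢ (Finset.univ : Finset Bool) := by exact_mod_cast hp
        have hp2 : (u', β') ∈ T ×ˢ (Finset.univ : Finset Bool) := by exact_mod_cast hp'
        have e1 := hgB _ hp1
        have e2 := hgB _ hp2
        rw [he] at e1
        have huu : u = u' := by
          funext i
          have a1 := e1 i
          have a2 := e2 i
          simp only at a1 a2
          omega
        subst huu
        have hne := (hXY u (Finset.mem_product.1 hp1).1).1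
        cases β <;> cases β'
        · rfl
        · simp only [hg] at he; exact absurd he.symm hne
        · simp only [hg] at he; exact absurd he hne
        · rfl
      have hcard : T'.card = 2 * T.card := by
        rw [hT', Finset.card_image_of_injOn hinj, Finset.card_product, Finset.card_univ,
          Fintype.card_bool]
        ring
      have hmem : ∀ v ∈ T', ∃ u ∈ T, InB u v ∧ NS b n τ u v ∧ (∀ j, τ j ≠ 0 → v j = w j) := by
        intro v hv
        obtain ⟨⟨u, β⟩, hp, rfl⟩ := Finset.mem_image.1 hv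
        have hu := (Finset.mem_product.1 hp).1
        have := hXY u hu
        cases β
        · exact ⟨u, hu, this.2.2.2.2.1, this.2.2.2.2.2.2, this.2.2.1⟩
        · exact ⟨u, hu, this.2.2.2.1, this.2.2.2.2.2.1, this.2.1⟩
      have key := ih w (Arr b n τ w U) T' ?_ ?_ ?_
      · rw [hcard] at key
        have e : 2 ^ n * (2 * T.card) = 2 ^ (n + 1) * T.card := by ring
        rwa [e] at key
      · intro v hv
        obtain ⟨u, hu, hB, hNS, hvw⟩ := hmem v hv
        exact ⟨hvw, u, hT u hu, hB, hNS⟩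
      · intro v hv
        obtain ⟨u, hu, hB, hNS, hvw⟩ := hmem v hv
        exact fun hb => hNS.1 (InZ_of_bad hB.p hb)
      · intro v hv
        obtain ⟨u, hu, hB, hNS, hvw⟩ := hmem v hv
        exact hvw
    have hsub : {ω | ¬ RS b (sd j S ω) τ (n + 1) c U} ⊆
        ⋃ w ∈ blk c, {ω | ¬ RS b (sd j S ω) τ n w (Arr b n τ w U)} := by
      intro ω hω
      simp only [Set.mem_ofPred_eq, RS] at hω
      push Not at hω
      obtain ⟨w, hw, h⟩ := hω
      exact Set.mem_biUnion (mem_blk.2 hw) h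
    calc (Pr d ν).real {ω | ¬ RS b (sd j S ω) τ (n + 1) c U}
        ≤ (Pr d ν).real (⋃ w ∈ blk c, {ω | ¬ RS b (sd j S ω) τ n w (Arr b n τ w U)}) :=
          measureReal_mono hsub (measure_ne_top _ _)
      _ ≤ ∑ w ∈ blk c, (Pr d ν).real {ω | ¬ RS b (sd j S ω) τ n w (Arr b n τ w U)} :=
          measureReal_biUnion_finset_le _ _
      _ ≤ ∑ w ∈ blk c, ((10 : ℝ) ^ d) ^ n * lam ν d j S ^ (2 ^ (n + 1) * T.card) :=
          Finset.sum_le_sum hw
      _ = ((10 : ℝ) ^ d) ^ (n + 1) * lam ν d j S ^ (2 ^ (n + 1) * T.card) := by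
          rw [Finset.sum_const, card_blk, nsmul_eq_mul]
          push_cast
          ring

end Pool.Agent.W5h98.Pol
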