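import Pool.Agent.W5h98.Pol.Asym

/-!
Explicit sequences with a given exponent.
-/

set_option autoImplicit false

namespace Pool.Agent.W5h98.Pol
open Filter Topology

theorem nat_two : Tendsto (fun n : ℕ => (n : ℝ) + 2) atTop atTop :=
  tendsto_atTop_add_const_right _ _ tendsto_natCast_atTop_atTop

theorem pseq_props : (∀ n : ℕ, 0 < Real.exp (-((n : ℝ) + 2))) ∧
    (∀ n : ℕ, Real.exp (-((n : ℝ) + 2)) ≤ 1 / 2) ∧
    Tendsto (fun n : ℕ => Real.exp (-((n : ℝ) + 2))) atTop (𝓝 0) := by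
  refine ⟨fun n => Real.exp_pos _, fun n => ?_,
    Real.tendsto_exp_atBot.comp (tendsto_neg_atTop_atBot.comp nat_two)⟩
  have h0 : (0 : ℝ) ≤ n := Nat.cast_nonneg n
  rw [Real.exp_neg, inv_eq_one_div]
  apply one_div_le_one_div_of_le (by norm_num)
  have := Real.add_one_le_exp ((n : ℝ) + 2)
  linarith

/-- Sequences with exponent `a`. -/
theorem seq_fin (a : ℝ) (ha : 0 ≤ a) (k : ℕ) (hk : 1 ≤ k) : ∃ p q : ℕ → ℝ, (∀ n, 0 < p n) ∧
    (∀ n, 0 < q n) ∧ (∀ n, p n + q n ≤ 1) ∧ Tendsto p atTop (𝓝 0) ∧ Tendsto q atTop (𝓝 0) ∧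
    Tendsto (fun n => Real.log (q n) / Real.log (p n)) atTop (𝓝 a) ∧
    (∀ n, p n = Real.exp (-((n : ℝ) + 2))) ∧
    (∀ n, q n = Real.exp (-(a * ((n : ℝ) + 2))) / ((n : ℝ) + 2) ^ k) := by
  obtain ⟨hp, hp2, hp0⟩ := pseq_props
  have hn0 : ∀ n : ℕ, (0 : ℝ) < (n : ℝ) + 2 := fun n => by positivity
  have hq : ∀ n : ℕ, 0 < Real.exp (-(a * ((n : ℝ) + 2))) / ((n : ℝ) + 2) ^ k :=
    fun n => div_pos (Real.exp_pos _) (pow_pos (hn0 n) k)
  have hqle : ∀ n : ℕ, Real.exp (-(a * ((n : ℝ) + 2))) / ((n : ℝ) + 2) ^ k ≤ 1 / ((n : ℝ) + 2) := by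
    intro n
    have h1 : Real.exp (-(a * ((n : ℝ) + 2))) ≤ 1 := by
      rw [Real.exp_le_one_iff]
      have := mul_nonneg ha (hn0 n).le
      linarith
    have h2 : (n : ℝ) + 2 ≤ ((n : ℝ) + 2) ^ k := by
      apply le_self_pow₀ _ (by omega)
      have : (0 : ℝ) ≤ n := Nat.cast_nonneg n
      linarith
    exact div_le_div₀ zero_le_one h1 (hn0 n) h2
  have h1n : Tendsto (fun n : ℕ => 1 / ((n : ℝ) + 2)) atTop (𝓝 0) := by
    simp only [one_div]; exact nat_two.inv_tendsto_atTop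
  refine ⟨_, _, hp, hq, ?_, hp0, ?_, ?_, fun n => rfl, fun n => rfl⟩
  · intro n
    have h1 := hp2 n
    have h2 := hqle n
    have h3 : 1 / ((n : ℝ) + 2) ≤ 1 / 2 := by
      apply one_div_le_one_div_of_le (by norm_num)
      have : (0 : ℝ) ≤ n := Nat.cast_nonneg n
      linarith
    linarith
  · exact squeeze_zero (fun n => (hq n).le) hqle h1n
  · have e : ∀ n : ℕ, Real.log (Real.exp (-(a * ((n : ℝ) + 2))) / ((n : ℝ) + 2) ^ k) /
        Real.log (Real.exp (-((n : ℝ) + 2))) = a + k * (Real.log ((n : ℝ) + 2) / ((n : ℝ) + 2)) := by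
      intro n
      rw [Real.log_div (Real.exp_pos _).ne' (pow_pos (hn0 n) k).ne', Real.log_exp, Real.log_exp,
        Real.log_pow]
      have := (hn0 n).ne'
      field_simp
      ring
    simp_rw [e]
    have h1 : Tendsto (fun x : ℝ => Real.log x / x) atTop (𝓝 0) :=
      Real.isLittleO_log_id_atTop.tendsto_div_nhds_zero
    have h2 := ((h1.comp nat_two).const_mul (k : ℝ)).const_add a
    rw [mul_zero, add_zero] at h2
    exact h2

/-- Sequences with infinite exponent. -/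
theorem seq_inf : ∃ p q : ℕ → ℝ, (∀ n, 0 < p n) ∧
    (∀ n, 0 < q n) ∧ (∀ n, p n + q n ≤ 1) ∧ Tendsto p atTop (𝓝 0) ∧ Tendsto q atTop (𝓝 0) ∧
    Tendsto (fun n => Real.log (q n) / Real.log (p n)) atTop atTop := by
  obtain ⟨hp, hp2, hp0⟩ := pseq_props
  have hn0 : ∀ n : ℕ, (0 : ℝ) < (n : ℝ) + 2 := fun n => by positivity
  have hqle : ∀ n : ℕ, Real.exp (-(((n : ℝ) + 2) * ((n : ℝ) + 2))) ≤ Real.exp (-((n : ℝ) + 2)) := by
    intro n
    rw [Real.exp_le_exp]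
    have : (0 : ℝ) ≤ n := Nat.cast_nonneg n
    nlinarith
  refine ⟨fun n => Real.exp (-((n : ℝ) + 2)), fun n => Real.exp (-(((n : ℝ) + 2) * ((n : ℝ) + 2))), hp,
    fun n => Real.exp_pos _, ?_, hp0, ?_, ?_⟩
  · intro n
    have h1 := hp2 n
    have h2 := hqle n
    linarith
  · exact squeeze_zero (fun n => (Real.exp_pos _).le) hqle hp0
  · refine nat_two.congr fun n => ?_
    rw [Real.log_exp, Real.log_exp]
    have := (hn0 n).ne'
    field_simp

end Pool.Agent.W5h98.Pol
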