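import Pool.Agent.W5h98.Pol.Nuc

/-!
Deterministic part of the renormalisation: one stage, and locality of the hierarchy.
-/

set_option autoImplicit false

namespace Pool.Agent.W5h98.Pol
open Finset Relation

variable {d : ℕ}

/-- The supporting patterns: all vectors with entries in `-1, 0, 1` with exactly `k` nonzero ones. -/
def pats (d k : ℕ) : Finset (V d) :=
  (Fintype.piFinset (fun _ : Fin d => ({-1, 0, 1} : Finset ℤ))).filter
    (fun τ => (Finset.univ.filter (fun j => τ j ≠ 0)).card = k)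

/-- The bad blocks of the next stage. -/
def bad' (k : ℕ) (b s : V d → Prop) (n : ℕ) (z : V d) : Prop :=
  badn b n z ∨ ∃ τ ∈ pats d k, ¬ RS b s τ n z {z}

theorem rule' {k : ℕ} (hk : k + 2 ≤ d) {b F s : V d → Prop} (hR : Rule (k + 1) b F)
    (hsd : ∀ x, ¬ b x → s x → F x) (n : ℕ) : Rule k (bad' k b s n) (fil b F n) := by
  rintro z hz ⟨A, hA, hsup⟩
  have hz1 : ¬ badn b n z := fun h => hz (Or.inl h)
  obtain ⟨J, hJA, hJ⟩ := Finset.exists_subset_card_eq hA
  have hτ : ∀ j, ∃ s : ℤ, (j ∈ J → ((s = 1 ∨ s = -1) ∧ fil b F n (mv z j s))) ∧ (j ∉ J → s = 0) := by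
    intro j
    by_cases hj : j ∈ J
    · rcases hsup j (hJA hj) with h1 | h1
      · exact ⟨1, fun _ => ⟨Or.inl rfl, h1⟩, fun h => absurd hj h⟩
      · exact ⟨-1, fun _ => ⟨Or.inr rfl, h1⟩, fun h => absurd hj h⟩
    · exact ⟨0, fun h => absurd h hj, fun _ => rfl⟩
  choose τ hτ1 hτ0 using hτ
  have hne : ∀ j, τ j ≠ 0 ↔ j ∈ J := by
    intro j
    constructor
    · intro h
      by_contra hc
      exact h (hτ0 j hc)
    · intro h
      rcases (hτ1 j h).1 with h1 | h1 <;> rw [h1] <;> norm_num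
  have hcard : (Finset.univ.filter (fun j => τ j ≠ 0)).card = k := by
    rw [← hJ]
    congr 1
    ext j
    simp [hne]
  have hval : ∀ j, τ j = 0 ∨ τ j = 1 ∨ τ j = -1 := by
    intro j
    by_cases hj : j ∈ J
    · exact Or.inr (hτ1 j hj).1
    · exact Or.inl (hτ0 j hj)
  have hp : τ ∈ pats d k := by
    refine Finset.mem_filter.2 ⟨Fintype.mem_piFinset.2 fun j => ?_, hcard⟩
    rcases hval j with h | h | h <;> simp [h]
  have hRS : RS b s τ n z {z} := by
    by_contra hc
    exact hz (Or.inr ⟨τ, hp, hc⟩)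
  refine nuc hk hR hsd hval hcard n z {z} ?_ ?_ ?_ ?_ hRS z rfl
  · rintro u rfl j _; rfl
  · rintro x rfl y rfl; exact ReflTransGen.refl
  · rintro u rfl; exact hz1
  · rintro u rfl j hj; exact (hτ1 j ((hne j).1 hj)).2

/-- The cells of a block of level `n`. -/
def Reg (n : ℕ) (z x : V d) : Prop := ∀ i, 10 ^ n * z i ≤ x i ∧ x i < 10 ^ n * z i + 10 ^ n

theorem Reg_sub {n : ℕ} {z u x : V d} (hu : InB z u) (h : Reg n u x) : Reg (n + 1) z x := by
  intro i
  have h1 := hu i
  have h2 := h i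
  have hP : (0 : ℤ) < 10 ^ n := by positivity
  rw [pow_succ]
  constructor <;> nlinarith

theorem fil_of_cells {b F : V d → Prop} : ∀ (n : ℕ) (z : V d), ¬ badn b n z →
    (∀ x, Reg n z x → ¬ b x → F x) → fil b F n z := by
  intro n
  induction n with
  | zero =>
    intro z hz h
    exact h z (by intro i; constructor <;> simp) hz
  | succ n ih =>
    intro z hz h
    refine ⟨hz, fun u hu hZ => ih u (fun hb => hZ (InZ_of_bad hu.p hb)) ?_⟩
    intro x hx hb
    exact h x (Reg_sub hu hx) hb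

theorem fil_origin {b F : V d → Prop} (hd : 0 < d) : ∀ (n : ℕ), fil b F n 0 →
    (∀ m < n, ∀ u, InBp 0 u → ¬ badn b m u) → F 0 := by
  intro n
  induction n with
  | zero => intro h _; exact h
  | succ n ih =>
    intro h hb
    apply ih _ (fun m hm => hb m (by omega))
    apply h.2
    · intro i; simp
    · intro hZ
      obtain ⟨v, hv, hvb, _⟩ := hZ ⟨0, hd⟩
      exact hb n (by omega) v hv hvb

/-- The cells on which the status of the block `z` of level `n` depends. -/
def Loc (n : ℕ) (z x : V d) : Prop :=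
  ∀ i, 10 ^ n * (z i - 1) + 1 ≤ x i ∧ x i + 1 < 10 ^ n * (z i + 2)

theorem Loc_zero {z x : V d} (h : Loc 0 z x) : x = z := by
  funext i
  have := h i
  simp only [pow_zero, one_mul] at this
  omega

theorem Loc_self {z : V d} : Loc 0 z z := by
  intro i
  simp only [pow_zero, one_mul]
  constructor <;> omega

theorem Loc_sub {n : ℕ} {z u x : V d} (hu : InBp z u) (h : Loc n u x) : Loc (n + 1) z x := by
  intro i
  have h1 := hu i
  have h2 := h i
  have hP : (0 : ℤ) < 10 ^ n := by positivity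
  rw [pow_succ]
  constructor <;> nlinarith

theorem badn_congr {b b' : V d → Prop} : ∀ (n : ℕ) (z : V d), (∀ x, Loc n z x → (b x ↔ b' x)) →
    (badn b n z ↔ badn b' n z) := by
  intro n
  induction n with
  | zero => intro z h; exact h z Loc_self
  | succ n ih =>
    intro z h
    have key : ∀ u, InBp z u → (badn b n u ↔ badn b' n u) :=
      fun u hu => ih u fun x hx => h x (Loc_sub hu hx)
    constructor
    · rintro ⟨u, v, hu, hv, h1, h2, h3⟩
      exact ⟨u, v, hu, hv, (key u hu).1 h1, (key v hv).1 h2, h3⟩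
    · rintro ⟨u, v, hu, hv, h1, h2, h3⟩
      exact ⟨u, v, hu, hv, (key u hu).2 h1, (key v hv).2 h2, h3⟩

theorem InZ_congr {b b' : V d → Prop} {n : ℕ} {z : V d} (h : ∀ x, Loc (n + 1) z x → (b x ↔ b' x))
    (v : V d) : InZ b n z v ↔ InZ b' n z v := by
  have key : ∀ u, InBp z u → (badn b n u ↔ badn b' n u) :=
    fun u hu => badn_congr n u fun x hx => h x (Loc_sub hu hx)
  constructor
  · intro hZ i
    obtain ⟨u, hu, h1, h2⟩ := hZ i
    exact ⟨u, hu, (key u hu).1 h1, h2⟩
  · intro hZ i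
    obtain ⟨u, hu, h1, h2⟩ := hZ i
    exact ⟨u, hu, (key u hu).2 h1, h2⟩

theorem Arr_congr {b b' : V d → Prop} {n : ℕ} {τ w : V d} {U : Set (V d)}
    (h : ∀ u ∈ U, ∀ x, Loc (n + 1) u x → (b x ↔ b' x)) : Arr b n τ w U = Arr b' n τ w U := by
  ext v
  constructor
  · rintro ⟨h1, u, hu, h2, h3, h4⟩
    exact ⟨h1, u, hu, h2, fun hc => h3 ((InZ_congr (h u hu) v).2 hc),
      fun j hc => h4 j ((InZ_congr (h u hu) _).2 hc)⟩
  · rintro ⟨h1, u, hu, h2, h3, h4⟩
    exact ⟨h1, u, hu, h2, fun hc => h3 ((InZ_congr (h u hu) v).1 hc),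
      fun j hc => h4 j ((InZ_congr (h u hu) _).1 hc)⟩

theorem RS_congr {b b' s s' : V d → Prop} {τ : V d} : ∀ (n : ℕ) (c : V d) (U : Set (V d)),
    (∀ u ∈ U, ∀ x, Loc n u x → ((b x ↔ b' x) ∧ (s x ↔ s' x))) →
    (RS b s τ n c U ↔ RS b' s' τ n c U) := by
  intro n
  induction n with
  | zero =>
    intro c U h
    constructor
    · rintro ⟨x, hx, h1⟩
      exact ⟨x, hx, ((h x hx x Loc_self).2).1 h1⟩
    · rintro ⟨x, hx, h1⟩
      exact ⟨x, hx, ((h x hx x Loc_self).2).2 h1⟩
  | succ n ih =>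
    intro c U h
    have e : ∀ w, Arr b n τ w U = Arr b' n τ w U :=
      fun w => Arr_congr fun u hu x hx => (h u hu x hx).1
    have key : ∀ w, (RS b s τ n w (Arr b n τ w U) ↔ RS b' s' τ n w (Arr b' n τ w U)) := by
      intro w
      rw [← e w]
      apply ih
      rintro v ⟨_, u, hu, hv, _⟩ x hx
      exact h u hu x (Loc_sub hv.p hx)
    constructor
    · intro hh w hw; exact (key w).1 (hh w hw)
    · intro hh w hw; exact (key w).2 (hh w hw)

theorem bad'_congr {k : ℕ} {b b' s s' : V d → Prop} {n : ℕ} {z : V d}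
    (h : ∀ x, Loc n z x → ((b x ↔ b' x) ∧ (s x ↔ s' x))) :
    bad' k b s n z ↔ bad' k b' s' n z := by
  have h1 : badn b n z ↔ badn b' n z := badn_congr n z fun x hx => (h x hx).1
  have h2 : ∀ τ, (RS b s τ n z {z} ↔ RS b' s' τ n z {z}) := by
    intro τ
    apply RS_congr
    rintro u rfl x hx
    exact h x hx
  unfold bad'
  rw [h1]
  simp only [h2]

/-- Two non-special sub-blocks in every layer of a good block. -/
theorem two_ns {b : V d → Prop} {n : ℕ} {τ u c w : V d} (hub : ¬ badn b (n + 1) u)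
    (huc : ∀ j, τ j ≠ 0 → u j = c j) (hw : InB c w)
    {i1 i2 : Fin d} (hi : i1 ≠ i2) (h1 : τ i1 = 0) (h2 : τ i2 = 0) :
    ∃ x y : V d, x ≠ y ∧ (∀ j, τ j ≠ 0 → x j = w j) ∧ (∀ j, τ j ≠ 0 → y j = w j) ∧
      InB u x ∧ InB u y ∧ NS b n τ u x ∧ NS b n τ u y := by
  obtain ⟨f, hf1, hf2, hf3⟩ := safe hub i1
  have mk : ∀ t : ℤ, (t = 0 ∨ t = 1) → ∃ x : V d, x i2 = 10 * u i2 + t ∧ (∀ j, τ j ≠ 0 → x j = w j) ∧
      InB u x ∧ NS b n τ u x := by
    intro t ht
    refine ⟨fun j => if τ j ≠ 0 then w j else if j = i1 then f else if j = i2 then 10 * u i2 + t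
      else 10 * u j, by simp [h2, hi.symm], fun j hj => by simp [hj], ?_, ?_⟩
    · intro j
      by_cases hj : τ j = 0
      · by_cases hj1 : j = i1
        · subst hj1; simp only [hj, ne_eq, not_true_eq_false, if_false, if_true]; exact ⟨hf1, hf2⟩
        · by_cases hj2 : j = i2
          · subst hj2
            simp only [hj, ne_eq, not_true_eq_false, if_false, hj1, if_true]
            rcases ht with rfl | rfl <;> constructor <;> omega
          · simp only [hj, ne_eq, not_true_eq_false, if_false, hj1, hj2]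
            constructor <;> omega
      · simp only [ne_eq, hj, not_false_eq_true, if_true]
        have := hw j
        rw [huc j hj]; exact this
    · apply NS_of_coord h1
      simp only [h1, ne_eq, not_true_eq_false, if_false, if_true]
      exact hf3
  obtain ⟨x, hx1, hx2, hx3, hx4⟩ := mk 0 (Or.inl rfl)
  obtain ⟨y, hy1, hy2, hy3, hy4⟩ := mk 1 (Or.inr rfl)
  refine ⟨x, y, ?_, hx2, hy2, hx3, hy3, hx4, hy4⟩
  intro h
  have := congrFun h i2
  omega

end Pool.Agent.W5h98.Pol
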