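import Pool.Agent.W5h98.Pol.Main

/-!
The induction over stages.
-/

set_option autoImplicit false

namespace Pool.Agent.W5h98.Pol
open MeasureTheory ProbabilityTheory Finset Filter Topology

variable {d : ℕ}

theorem LocF_mono {κ N : ℕ} {S : ℤ} {z : V d} : LocF (κ + 1) N S z ⊆ LocF κ N S z := by
  intro t ht
  rw [mem_LocF] at ht ⊢
  refine ⟨ht.1, ht.2.1, ?_⟩
  have := ht.2.2
  omega

theorem sd_loc {κ N n : ℕ} (hN : κ + 1 ≤ N) {S : ℤ} (hS : 1 ≤ S) {z x : V d} (h : Loc n z x) :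
    ∀ y ∈ bxS S x, (y, κ + 1) ∈ LocF κ N (S * 10 ^ n) z := by
  intro y hy
  apply LocF_sub hS h
  rw [mem_LocF]
  refine ⟨fun i => ?_, hN, Or.inr (by simp)⟩
  have h1 := mem_bxS.1 hy i
  simp only
  constructor <;> nlinarith [h1.1, h1.2]

theorem bad'_dep {κ N : ℕ} (hN : κ + 1 ≤ N) {S : ℤ} (hS : 1 ≤ S) {b : Om d → V d → Prop}
    (hb : ∀ z, Dep (LocF (κ + 1) N S z : Set (V d × ℕ)) {ω | b ω z}) (n : ℕ) (z : V d) :
    Dep (LocF κ N (S * 10 ^ n) z : Set (V d × ℕ)) {ω | bad' κ (b ω) (sd (κ + 1) S ω) n z} := by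
  intro ω ω' h h1
  refine (bad'_congr fun x hx => ⟨?_, ?_⟩).1 h1
  · exact (hb x).iff fun t ht => h t (LocF_sub hS hx (LocF_mono ht))
  · have e : ∀ y ∈ bxS S x, ω (y, κ + 1) = ω' (y, κ + 1) := fun y hy => h _ (sd_loc hN hS hx y hy)
    constructor
    · intro h2 y hy; rw [← e y hy]; exact h2 y hy
    · intro h2 y hy; rw [e y hy]; exact h2 y hy

theorem sum_half (n : ℕ) : ∑ m ∈ Finset.range n, (1 : ℝ) / 2 ^ m ≤ 2 := by
  have h : ∀ n : ℕ, ∑ m ∈ Finset.range n, (1 : ℝ) / 2 ^ m = 2 - 2 / 2 ^ n := by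
    intro n
    induction n with
    | zero => simp
    | succ n ih => rw [Finset.sum_range_succ, ih, pow_succ]; field_simp; ring
  rw [h n]
  have : (0 : ℝ) ≤ 2 / 2 ^ n := by positivity
  linarith

/-- The main probabilistic statement: with rule threshold `κ ≤ d - 1`, bad cells of small density and
seeds of any positive density, the origin is filled with probability close to one. -/
theorem stage : ∀ (κ : ℕ), κ + 1 ≤ d → ∀ ε : ℝ, 0 < ε → ∃ δ : ℝ, 0 < δ ∧
    ∀ (ν : ℕ → Measure Bool) [∀ j, IsProbabilityMeasure (ν j)],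
      (∀ j, 1 ≤ j → j ≤ κ → 0 < (ν j).real {true}) → ∀ (N : ℕ), κ ≤ N → ∀ (S : ℤ), 1 ≤ S →
      ∀ (b : Om d → V d → Prop), (∀ z, Dep (LocF κ N S z : Set (V d × ℕ)) {ω | b ω z}) →
      (∀ z, (Pr d ν).real {ω | b ω z} ≤ δ) → ∀ (F : Om d → V d → Prop),
      (∀ ω, Rule κ (b ω) (F ω)) →
      (∀ ω z, ¬ b ω z → (∃ j, 1 ≤ j ∧ j ≤ κ ∧ sd j S ω z) → F ω z) →
      (Pr d ν).real {ω | ¬ F ω 0} ≤ ε := by
  classical
  intro κ
  induction κ with
  | zero =>
    intro _ ε hε
    refine ⟨ε, hε, ?_⟩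
    intro ν _ _ N _ S _ b _ hp F hR _
    refine le_trans (measureReal_mono ?_ (measure_ne_top _ _)) (hp 0)
    intro ω hω
    by_contra hcon
    exact hω (hR ω 0 hcon ⟨∅, le_rfl, by simp⟩)
  | succ κ ih =>
    intro hκ ε hε
    obtain ⟨δ1, hδ1, IH⟩ := ih (by omega) (ε / 2) (by positivity)
    set δ : ℝ := min ((1 / 2) / 256 ^ d) (ε / (4 * 16 ^ d)) with hδdef
    have hδ0 : 0 < δ := by rw [hδdef]; positivity
    have hδa : (256 : ℝ) ^ d * δ ≤ 1 / 2 := by
      have : δ ≤ (1 / 2) / 256 ^ d := min_le_left _ _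
      rw [le_div_iff₀ (by positivity)] at this
      linarith
    have hδb : (16 : ℝ) ^ d * δ * 2 ≤ ε / 2 := by
      have : δ ≤ ε / (4 * 16 ^ d) := min_le_right _ _
      rw [le_div_iff₀ (by positivity)] at this
      linarith
    refine ⟨δ, hδ0, ?_⟩
    intro ν _ hν N hN S hS b hb hp F hR hF
    have hlam0 := lam_nonneg ν (d := d) (κ + 1) S
    have hlam1 := lam_lt_one ν (d := d) S (hν (κ + 1) (by omega) le_rfl)
    obtain ⟨n, hn⟩ : ∃ n : ℕ, δ / 2 ^ n +
        (pats d κ).card * (((10 : ℝ) ^ d) ^ n * lam ν d (κ + 1) S ^ 2 ^ n) ≤ δ1 := by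
      have t1 : Tendsto (fun n : ℕ => δ / 2 ^ n) atTop (𝓝 0) := by
        have := tendsto_pow_atTop_nhds_zero_of_lt_one (r := (1 / 2 : ℝ)) (by norm_num) (by norm_num)
        have h2 := this.const_mul δ
        rw [mul_zero] at h2
        refine h2.congr fun n => ?_
        rw [div_pow, one_pow]; ring
      have t2 := (decay hlam0 hlam1 d).const_mul ((pats d κ).card : ℝ)
      rw [mul_zero] at t2
      have t3 := t1.add t2
      rw [add_zero] at t3
      exact ((t3.eventually (eventually_le_nhds hδ1)).exists)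
    -- the next stage
    have hbad := badn_prob ν hS hb hδ0.le hδa hp
    have hp' : ∀ z, (Pr d ν).real {ω | bad' κ (b ω) (sd (κ + 1) S ω) n z} ≤ δ1 := by
      intro z
      have hsub : {ω | bad' κ (b ω) (sd (κ + 1) S ω) n z} ⊆ {ω | badn (b ω) n z} ∪
          ⋃ τ ∈ pats d κ, {ω | ¬ badn (b ω) n z ∧ ¬ RS (b ω) (sd (κ + 1) S ω) τ n z {z}} := by
        intro ω hω
        by_cases h1 : badn (b ω) n z
        · exact Or.inl h1
        · rcases hω with h2 | ⟨τ, hτ, h2⟩
          · exact absurd h2 h1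
          · exact Or.inr (Set.mem_biUnion hτ ⟨h1, h2⟩)
      calc (Pr d ν).real {ω | bad' κ (b ω) (sd (κ + 1) S ω) n z}
          ≤ _ := measureReal_mono hsub (measure_ne_top _ _)
        _ ≤ _ := measureReal_union_le _ _
        _ ≤ δ / 2 ^ n + ∑ τ ∈ pats d κ,
            (Pr d ν).real {ω | ¬ badn (b ω) n z ∧ ¬ RS (b ω) (sd (κ + 1) S ω) τ n z {z}} :=
            add_le_add (hbad n z) (measureReal_biUnion_finset_le _ _)
        _ ≤ δ / 2 ^ n + ∑ _τ ∈ pats d κ, ((10 : ℝ) ^ d) ^ n * lam ν d (κ + 1) S ^ 2 ^ n := by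
            gcongr with τ hτ
            exact rs_prob ν hκ hS hb (Finset.mem_filter.1 hτ).2 n z
        _ ≤ δ1 := by rw [Finset.sum_const, nsmul_eq_mul]; exact hn
    have key := IH ν (fun j h1 h2 => hν j h1 (by omega)) N (by omega) (S * 10 ^ n) (pos_pow hS n)
      (fun ω z => bad' κ (b ω) (sd (κ + 1) S ω) n z) (bad'_dep (by omega) hS hb n) hp'
      (fun ω z => fil (b ω) (F ω) n z)
      (fun ω => rule' hκ (hR ω) (fun x h1 h2 => hF ω x h1 ⟨κ + 1, by omega, le_rfl, h2⟩) n) ?_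
    · -- conclusion
      have hsub : {ω | ¬ F ω 0} ⊆ {ω | ¬ fil (b ω) (F ω) n 0} ∪
          ⋃ m ∈ Finset.range n, ⋃ u ∈ blkp (0 : V d), {ω | badn (b ω) m u} := by
        intro ω hω
        by_contra hcon
        simp only [Set.mem_union, Set.mem_iUnion, not_or, not_exists] at hcon
        apply hω
        apply fil_origin (by omega) n
        · by_contra h
          exact hcon.1 h
        · intro m hm u hu hbb
          exact hcon.2 m (Finset.mem_range.2 hm) u (mem_blkp.2 hu) hbb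
      calc (Pr d ν).real {ω | ¬ F ω 0}
          ≤ _ := measureReal_mono hsub (measure_ne_top _ _)
        _ ≤ _ := measureReal_union_le _ _
        _ ≤ ε / 2 + ∑ m ∈ Finset.range n, (Pr d ν).real (⋃ u ∈ blkp (0 : V d), {ω | badn (b ω) m u}) :=
            add_le_add key (measureReal_biUnion_finset_le _ _)
        _ ≤ ε / 2 + ∑ m ∈ Finset.range n, (16 ^ d * δ) * (1 / 2 ^ m) := by
            gcongr with m hm
            refine le_trans (measureReal_biUnion_finset_le _ _) ?_
            refine le_trans (Finset.sum_le_sum fun u _ => hbad m u) ?_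
            rw [Finset.sum_const, card_blkp, nsmul_eq_mul]
            push_cast
            apply le_of_eq
            ring
        _ = ε / 2 + (16 ^ d * δ) * ∑ m ∈ Finset.range n, (1 : ℝ) / 2 ^ m := by
            rw [Finset.mul_sum]
        _ ≤ ε / 2 + (16 ^ d * δ) * 2 := by
            gcongr
            exact sum_half n
        _ ≤ ε := by linarith
    · rintro ω z hz ⟨j, hj1, hj2, hsd⟩
      apply fil_of_cells n z (fun h => hz (Or.inl h))
      intro x hx hbx
      apply hF ω x hbx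
      refine ⟨j, hj1, by omega, ?_⟩
      intro y hy
      apply hsd
      rw [mem_bxS] at hy ⊢
      intro i
      have h1 := hy i
      have h2 := hx i
      have e1 : S * 10 ^ n * z i = S * (10 ^ n * z i) := by ring
      have a1 : S * (10 ^ n * z i) ≤ S * x i := mul_le_mul_of_nonneg_left h2.1 (by omega)
      have a2 : S * (x i + 1) ≤ S * (10 ^ n * z i + 10 ^ n) :=
        mul_le_mul_of_nonneg_left (by linarith [h2.2]) (by omega)
      rw [e1]
      constructor <;> linarith [h1.1, h1.2]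

end Pool.Agent.W5h98.Pol
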